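import Pool.Agent.Helper848.SD.Ind

set_option autoImplicit false

/-!
# Sites shared by two vertices: blocks of odd partners
-/

namespace Pool.Agent.Helper848.SD

open Finset

section blocks

variable {V : Type} [Fintype V] [DecidableEq V] {s t : ℕ}

open Classical in
/-- coordinates of the vertex `b j` -/
noncomputable def cB (G : SimpleGraph V) (b : Fin s → V) (z : Fin s × Fin t → V)
    (x : Fin s → Fin t → ℝ) (ρ : Fin s → Fin s → Fin t) (M σ τ η : ℝ) (j : Fin s) (w : V) : ℝ :=
  match Function.partialInv z w with
  | some p => if p.1 = j then M * x p.1 p.2 else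
      (if p.1 < j ∧ p.2 = ρ p.1 j then σ else τ) * sgn G (b j) w
  | none => 3 * η * sgn G (b j) w

/-- `v` lies in a block, and `w` is in the same block or is the site of the block -/
def nb (a : Fin s → V) (z : Fin s × Fin t → V) (v w : V) : Prop :=
  ∃ i r, v = z (i, r) ∧ (w = a i ∨ ∃ r', w = z (i, r'))

open Classical in
/-- coordinates of a vertex outside the range of `b` -/
noncomputable def cT (G : SimpleGraph V) (a : Fin s → V) (z : Fin s × Fin t → V) (L η : ℝ)
    (v w : V) : ℝ := (if nb a z v w then L else η) * sgn G v w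

theorem class_block (G : SimpleGraph V) (n : ℕ) (hn : Fintype.card V = n) (hn1 : 1 ≤ n)
    (a b : Fin s → V) (ha : Function.Injective a) (hb : Function.Injective b)
    (hab : ∀ i, a i ∉ univ.image b)
    (z : Fin s × Fin t → V) (hz : Function.Injective z) (hzb : ∀ p, z p ∉ univ.image b)
    (hza : ∀ p, z p ∉ univ.image a)
    (hodd : ∀ i r, sgn G (b i) (z (i, r)) * sgn G (a i) (z (i, r)) = sgn G (b i) (a i))
    (x : Fin s → Fin t → ℝ) (hx : ∀ i r, |x i r| = 1) (ρ : Fin s → Fin s → Fin t)
    (hρ : ∀ i j, i < j → x i (ρ i j) * sgn G (b j) (z (i, ρ i j)) = sgn G (b i) (b j))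
    (d : ℕ) (hd : n - s = d + 1) : SphereClass d G := by
  classical
  have hcard : Fintype.card (Sites b) = d + 1 := by rw [card_sites b hb, hn, hd]
  have hcardn : Fintype.card (Sites b) ≤ n := by rw [hcard]; omega
  have hn0 : (1 : ℝ) ≤ n := by exact_mod_cast hn1
  -- the scales
  obtain ⟨L, M, σ, τ, η, hL0, hM0, hσ0, hτ0, hη0, hL1, hnL, hML, hnσ, hnLσ, hnτ, hησ⟩ :
      ∃ L M σ τ η : ℝ, 0 < L ∧ 0 < M ∧ 0 < σ ∧ 0 < τ ∧ 0 < η ∧ L ≤ 1 / 32 ∧ n * L ≤ 1 / 32 ∧
        M = L / 4 ∧ n * σ = M / 8 ∧ n * (L * σ) ≤ τ / 4 ∧ n * τ = σ / 8 ∧ η = M * σ / 128 := by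
    refine ⟨1 / (32 * n ^ 2), 1 / (128 * n ^ 2), 1 / (1024 * n ^ 3), 1 / (8192 * n ^ 4),
      1 / (128 * n ^ 2) * (1 / (1024 * n ^ 3)) / 128, by positivity, by positivity, by positivity,
      by positivity, by positivity, ?_, ?_, ?_, ?_, ?_, ?_, rfl⟩
    · rw [div_le_div_iff₀ (by positivity) (by norm_num)]
      nlinarith
    · have : (n : ℝ) * (1 / (32 * n ^ 2)) = 1 / (32 * n) := by field_simp
      rw [this, div_le_div_iff₀ (by positivity) (by norm_num)]
      nlinarith
    · field_simp; norm_num
    · field_simp; norm_num
    · apply le_of_eq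
      field_simp; norm_num
    · field_simp; norm_num
  have hτσ : τ ≤ σ / 8 := by nlinarith
  have hσM : σ ≤ M / 8 := by nlinarith
  have hM1 : M ≤ 1 / 128 := by linarith
  have hητ : 32 * η ≤ τ := by
    -- `η = M σ / 128` and `σ = 8 n τ`, `n M ≤ 1 / 128`
    have h1 : (n : ℝ) * M ≤ 1 / 128 := by rw [hML]; linarith
    have h2 : σ = 8 * (n * τ) := by linarith
    have h3 : M * σ = 8 * (n * M) * τ := by rw [h2]; ring
    rw [hησ, h3]
    nlinarith
  have hnM : (n : ℝ) * M ≤ 1 / 128 := by rw [hML]; linarith
  set ε : V → ℝ := fun v => if v ∈ univ.image b then sgn G v (st a b hab v).1 else 1 with hε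
  set c : V → Sites b → ℝ := fun v w => if w = st a b hab v then 0 else
    match Function.partialInv b v with
    | some j => cB G b z x ρ M σ τ η j w.1
    | none => cT G a z L η v w.1 with hc
  -- values of `c`
  have hpb : ∀ j, Function.partialInv b (b j) = some j := fun j =>
    (Function.partialInv_of_injective hb j (b j)).2 rfl
  have hpb0 : ∀ v, v ∉ univ.image b → Function.partialInv b v = none := by
    intro v hv
    cases h : Function.partialInv b v with
    | none => rfl
    | some j =>
      exact absurd (mem_image.2 ⟨j, mem_univ _, (Function.partialInv_of_injective hb j v).1 h⟩) hv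
  have hpz : ∀ p, Function.partialInv z (z p) = some p := fun p =>
    (Function.partialInv_of_injective hz p (z p)).2 rfl
  have hpz0 : ∀ w, (∀ p, w ≠ z p) → Function.partialInv z w = none := by
    intro w hw
    cases h : Function.partialInv z w with
    | none => rfl
    | some p => exact absurd ((Function.partialInv_of_injective hz p w).1 h).symm (hw p)
  have cb : ∀ j w, w ≠ st a b hab (b j) → c (b j) w = cB G b z x ρ M σ τ η j w.1 := by
    intro j w hw
    simp only [hc]
    rw [if_neg hw, hpb]
  have ct : ∀ v, v ∉ univ.image b → ∀ w, w ≠ st a b hab v → c v w = cT G a z L η v w.1 := by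
    intro v hv w hw
    simp only [hc]
    rw [if_neg hw, hpb0 v hv]
  have hst0 : ∀ v, c v (st a b hab v) = 0 := by
    intro v
    show (if st a b hab v = st a b hab v then (0 : ℝ) else _) = 0
    rw [if_pos rfl]
  have vBz : ∀ j i r, cB G b z x ρ M σ τ η j (z (i, r)) = if i = j then M * x i r else
      (if i < j ∧ r = ρ i j then σ else τ) * sgn G (b j) (z (i, r)) := by
    intro j i r
    unfold cB
    rw [hpz]
  have vB0 : ∀ j w, (∀ p, w ≠ z p) → cB G b z x ρ M σ τ η j w = 3 * η * sgn G (b j) w := by
    intro j w hw
    unfold cB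
    rw [hpz0 w hw]
  -- bounds for `cB` and `cT`
  have bBz : ∀ j i r, i ≠ j → |cB G b z x ρ M σ τ η j (z (i, r))| ≤ σ := by
    intro j i r hij
    rw [vBz, if_neg hij, abs_mul, sgn_abs, mul_one]
    split_ifs
    · rw [abs_of_pos hσ0]
    · rw [abs_of_pos hτ0]; linarith
  have bBz' : ∀ j i r, i ≠ j → ¬ (i < j ∧ r = ρ i j) → |cB G b z x ρ M σ τ η j (z (i, r))| ≤ τ := by
    intro j i r hij h
    rw [vBz, if_neg hij, if_neg h, abs_mul, sgn_abs, mul_one, abs_of_pos hτ0]
  have bB0 : ∀ j w, (∀ p, w ≠ z p) → |cB G b z x ρ M σ τ η j w| ≤ 3 * η := by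
    intro j w hw
    rw [vB0 j w hw, abs_mul, sgn_abs, mul_one, abs_of_pos (by linarith)]
  have bB : ∀ j w, |cB G b z x ρ M σ τ η j w| ≤ M := by
    intro j w
    by_cases h : ∃ p, w = z p
    · obtain ⟨⟨i, r⟩, rfl⟩ := h
      by_cases hij : i = j
      · rw [vBz, if_pos hij, abs_mul, hx, mul_one, abs_of_pos hM0]
      · exact (bBz j i r hij).trans (by linarith)
    · push Not at h
      exact (bB0 j w h).trans (by linarith)
  have bT : ∀ v w, |cT G a z L η v w| ≤ L := by
    intro v w
    unfold cT
    rw [abs_mul, sgn_abs, mul_one]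
    split_ifs
    · rw [abs_of_pos hL0]
    · rw [abs_of_pos hη0]; linarith
  have bT' : ∀ v w, ¬ nb a z v w → |cT G a z L η v w| ≤ η := by
    intro v w h
    unfold cT
    rw [if_neg h, abs_mul, sgn_abs, mul_one, abs_of_pos hη0]
  -- the same for `c`
  have cB_le : ∀ j w, |c (b j) w| ≤ M := by
    intro j w
    by_cases h : w = st a b hab (b j)
    · rw [h, hst0, abs_zero]; exact hM0.le
    · rw [cb j w h]; exact bB j w.1
  have cT_le : ∀ v, v ∉ univ.image b → ∀ w, |c v w| ≤ L := by
    intro v hv w
    by_cases h : w = st a b hab v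
    · rw [h, hst0, abs_zero]; exact hL0.le
    · rw [ct v hv w h]; exact bT v w.1
  have cT_le' : ∀ v, v ∉ univ.image b → ∀ w : Sites b, ¬ nb a z v w.1 → |c v w| ≤ η := by
    intro v hv w hnb
    by_cases h : w = st a b hab v
    · rw [h, hst0, abs_zero]; exact hη0.le
    · rw [ct v hv w h]; exact bT' v w.1 hnb
  have c_le : ∀ v w, |c v w| ≤ L := by
    intro v w
    by_cases hv : v ∈ univ.image b
    · obtain ⟨j, -, rfl⟩ := mem_image.1 hv
      exact (cB_le j w).trans (by linarith)
    · exact cT_le v hv w
  have hεabs' : ∀ v, |ε v| = 1 := by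
    intro v
    simp only [hε]
    split_ifs
    · exact sgn_abs _ _ _
    · norm_num
  have hεabs : ∀ v, ε v * ε v = 1 := by
    intro v
    rw [← abs_mul_abs_self, hεabs']
    norm_num
  have hazne : ∀ i p, a i ≠ z p := fun i p h => hza p (mem_image.2 ⟨i, mem_univ _, h⟩)
  have hnba : ∀ v i, nb a z v (a i) → ∃ r, v = z (i, r) := by
    rintro v i ⟨i', r, h1, h2 | ⟨r', h2⟩⟩
    · rw [ha h2]; exact ⟨r, h1⟩
    · exact absurd h2 (hazne i (i', r'))
  have hnbz : ∀ v i r, nb a z v (z (i, r)) → ∃ r', v = z (i, r') := by
    rintro v i r ⟨i', r1, h1, h2 | ⟨r', h2⟩⟩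
    · exact absurd h2.symm (hazne i' (i, r))
    · have := hz h2
      have h3 : i = i' := congrArg Prod.fst this
      rw [h3]; exact ⟨r1, h1⟩
  set F : V → V → ℝ := fun u v => ∑ w, ((if w = st a b hab u then ε u else 0) + c u w) *
    ((if w = st a b hab v then ε v else 0) + c v w) with hF
  have hFip : ∀ u v, F u v = (if st a b hab u = st a b hab v then ε u * ε v else 0) +
      ε u * c v (st a b hab u) + ε v * c u (st a b hab v) + ∑ w, c u w * c v w :=
    fun u v => ip (st a b hab) ε c u v
  have sym : ∀ u v, F u v = F v u := fun u v => sum_congr rfl fun w _ => mul_comm _ _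
  have expand : ∀ q A B C D : ℝ, q * (A + B + C + D) = q * A + q * B + q * C + q * D := by
    intro q A B C D; ring
  -- sums of small products
  have sumle : ∀ (u v : V) (B : ℝ), (∀ w, |c u w * c v w| ≤ B) →
      |sgn G u v * ∑ w, c u w * c v w| ≤ n * B := by
    intro u v B h
    rw [abs_mul, sgn_abs, one_mul]
    refine (abs_sum_le_sum_abs _ _).trans ?_
    have hB : 0 ≤ B := (abs_nonneg _).trans (h (st a b hab u))
    calc ∑ w, |c u w * c v w| ≤ ∑ _w : Sites b, B := sum_le_sum fun w _ => h w
      _ = Fintype.card (Sites b) * B := by rw [sum_const, card_univ, nsmul_eq_mul]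
      _ ≤ n * B := by
          have : (Fintype.card (Sites b) : ℝ) ≤ n := by exact_mod_cast hcardn
          exact mul_le_mul_of_nonneg_right this hB
  -- two vertices outside the range of `b`
  have TT : ∀ u v, u ≠ v → u ∉ univ.image b → v ∉ univ.image b → η ≤ sgn G u v * F u v := by
    intro u v huv hu hv
    have hsu : st a b hab u = ⟨u, hu⟩ := st_out a b hab u hu
    have hsv : st a b hab v = ⟨v, hv⟩ := st_out a b hab v hv
    have hne : st a b hab u ≠ st a b hab v := by
      rw [hsu, hsv]
      exact fun h => huv (congrArg Subtype.val h)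
    have hεu : ε u = 1 := by simp only [hε]; rw [if_neg hu]
    have hεv : ε v = 1 := by simp only [hε]; rw [if_neg hv]
    have e1 : c v (st a b hab u) = cT G a z L η v u := by
      rw [ct v hv _ hne, hsu]
    have e2 : c u (st a b hab v) = cT G a z L η u v := by
      rw [ct u hu _ hne.symm, hsv]
    rw [hFip, if_neg hne, hεu, hεv, e1, e2, expand]
    have g1 : ∀ q : ℝ, sgn G u v * (1 * (q * sgn G v u)) = q := by
      intro q
      rw [sgn_comm G v u]
      have := sgn_mul G u v
      linear_combination q * this
    have g2 : ∀ q : ℝ, sgn G u v * (1 * (q * sgn G u v)) = q := by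
      intro q
      have := sgn_mul G u v
      linear_combination q * this
    unfold cT
    rw [g1, g2]
    have hLL : (n : ℝ) * (L * L) ≤ L / 32 := by nlinarith
    by_cases h1 : nb a z v u
    · have hN := (abs_le.1 (sumle u v (L * L) (fun w => by
        rw [abs_mul]
        exact mul_le_mul (c_le u w) (c_le v w) (abs_nonneg _) hL0.le))).1
      rw [if_pos h1]
      split_ifs <;> linarith
    · by_cases h2 : nb a z u v
      · have hN := (abs_le.1 (sumle u v (L * L) (fun w => by
          rw [abs_mul]
          exact mul_le_mul (c_le u w) (c_le v w) (abs_nonneg _) hL0.le))).1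
        rw [if_pos h2, if_neg h1]
        linarith
      · have hN := (abs_le.1 (sumle u v (L * η) (fun w => by
          rw [abs_mul]
          by_cases h3 : nb a z u w.1
          · have h4 : ¬ nb a z v w.1 := by
              intro h4
              obtain ⟨i, r, e3, e4 | ⟨r', e4⟩⟩ := h3
              · rw [e4] at h4
                obtain ⟨r2, e5⟩ := hnba v i h4
                exact h1 ⟨i, r2, e5, Or.inr ⟨r, e3⟩⟩
              · rw [e4] at h4
                obtain ⟨r2, e5⟩ := hnbz v i r' h4
                exact h1 ⟨i, r2, e5, Or.inr ⟨r, e3⟩⟩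
            exact mul_le_mul (c_le u w) (cT_le' v hv w h4) (abs_nonneg _) hL0.le
          · rw [mul_comm]
            exact mul_le_mul (c_le v w) (cT_le' u hu w h3) (abs_nonneg _) hL0.le))).1
        have h5 : (n : ℝ) * (L * η) ≤ η / 32 := by nlinarith
        rw [if_neg h1, if_neg h2]
        linarith
  -- a vertex of the range of `b` and a vertex outside it
  have QT : ∀ i v, v ∉ univ.image b → η ≤ sgn G (b i) v * F (b i) v := by
    intro i v hv
    have hub : b i ∈ univ.image b := mem_image_of_mem _ (mem_univ _)
    have hsu : st a b hab (b i) = ⟨a i, hab i⟩ := st_b a b hab hb i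
    have hsv : st a b hab v = ⟨v, hv⟩ := st_out a b hab v hv
    have hεu : ε (b i) = sgn G (b i) (a i) := by
      simp only [hε]
      rw [if_pos hub, hsu]
    have hεv : ε v = 1 := by simp only [hε]; rw [if_neg hv]
    by_cases hvi : v = a i
    · subst hvi
      have hst : st a b hab (b i) = st a b hab (a i) := by rw [hsu, hsv]
      have e1 : c (a i) (st a b hab (b i)) = 0 := by rw [hst]; exact hst0 _
      have e2 : c (b i) (st a b hab (a i)) = 0 := by rw [← hst]; exact hst0 _
      rw [hFip, if_pos hst, e1, e2, hεu, hεv, expand]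
      have hN := (abs_le.1 (sumle (b i) (a i) (L * L) (fun w => by
        rw [abs_mul]
        exact mul_le_mul (c_le _ w) (c_le _ w) (abs_nonneg _) hL0.le))).1
      have hLL : (n : ℝ) * (L * L) ≤ L / 32 := by nlinarith
      have := sgn_mul G (b i) (a i)
      nlinarith
    · have hne : st a b hab (b i) ≠ st a b hab v := by
        rw [hsu, hsv]
        exact fun h => hvi (congrArg Subtype.val h).symm
      have e1 : c v (st a b hab (b i)) = cT G a z L η v (a i) := by
        rw [ct v hv _ hne, hsu]
      have e2 : c (b i) (st a b hab v) = cB G b z x ρ M σ τ η i v := by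
        rw [cb i _ hne.symm, hsv]
      rw [hFip, if_neg hne, e1, e2, hεv, expand]
      by_cases hz1 : ∃ p, v = z p
      · obtain ⟨⟨l, r⟩, rfl⟩ := hz1
        by_cases hl : l = i
        · subst hl
          have hnb : nb a z (z (l, r)) (a l) := ⟨l, r, rfl, Or.inl rfl⟩
          have e3 : sgn G (b l) (z (l, r)) * (ε (b l) * cT G a z L η (z (l, r)) (a l)) = L := by
            unfold cT
            rw [if_pos hnb, hεu, sgn_comm G (z (l, r)) (a l), ← hodd l r]
            have h1 := sgn_mul G (b l) (z (l, r))
            have h2 := sgn_mul G (a l) (z (l, r))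
            have : sgn G (b l) (z (l, r)) * (sgn G (b l) (z (l, r)) * sgn G (a l) (z (l, r)) *
                (L * sgn G (a l) (z (l, r)))) = (sgn G (b l) (z (l, r)) * sgn G (b l) (z (l, r))) *
                (sgn G (a l) (z (l, r)) * sgn G (a l) (z (l, r))) * L := by ring
            rw [this, h1, h2]
            ring
          rw [e3]
          have e4 : |sgn G (b l) (z (l, r)) * (1 * cB G b z x ρ M σ τ η l (z (l, r)))| ≤ M := by
            rw [abs_mul, sgn_abs, one_mul, one_mul]
            exact bB _ _
          have h4 := (abs_le.1 e4).1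
          have hN := (abs_le.1 (sumle (b l) (z (l, r)) (L * L) (fun w => by
            rw [abs_mul]
            exact mul_le_mul (c_le _ w) (c_le _ w) (abs_nonneg _) hL0.le))).1
          have hLL : (n : ℝ) * (L * L) ≤ L / 32 := by nlinarith
          linarith
        · have hnb : ¬ nb a z (z (l, r)) (a i) := by
            intro h
            obtain ⟨r', h'⟩ := hnba _ _ h
            exact hl (congrArg Prod.fst (hz h'))
          have e3 : |sgn G (b i) (z (l, r)) * (ε (b i) * cT G a z L η (z (l, r)) (a i))| ≤ η := by
            rw [abs_mul, abs_mul, sgn_abs, hεabs', one_mul, one_mul]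
            exact bT' _ _ hnb
          have h3 := (abs_le.1 e3).1
          have e4 : τ ≤ sgn G (b i) (z (l, r)) * (1 * cB G b z x ρ M σ τ η i (z (l, r))) := by
            rw [vBz, if_neg hl]
            have h1 := sgn_mul G (b i) (z (l, r))
            split_ifs
            · have : sgn G (b i) (z (l, r)) * (1 * (σ * sgn G (b i) (z (l, r)))) = σ := by
                linear_combination σ * h1
              rw [this]; linarith
            · have : sgn G (b i) (z (l, r)) * (1 * (τ * sgn G (b i) (z (l, r)))) = τ := by
                linear_combination τ * h1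
              rw [this]
          have hN := (abs_le.1 (sumle (b i) (z (l, r)) (L * σ + M * η) (fun w => by
            rw [abs_mul]
            by_cases h5 : nb a z (z (l, r)) w.1
            · have h6 : |c (b i) w| ≤ σ := by
                by_cases h7 : w = st a b hab (b i)
                · rw [h7, hst0, abs_zero]; exact hσ0.le
                · rw [cb i w h7]
                  obtain ⟨i', r', e5, e6 | ⟨r2, e6⟩⟩ := h5
                  · rw [e6]
                    exact (bB0 i _ (fun p => hazne i' p)).trans (by linarith)
                  · have e7 : l = i' := congrArg Prod.fst (hz e5)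
                    rw [e6]
                    exact bBz i i' r2 (fun h => hl (e7.trans h))
              calc |c (b i) w| * |c (z (l, r)) w| ≤ σ * L :=
                    mul_le_mul h6 (c_le _ w) (abs_nonneg _) hσ0.le
                _ ≤ L * σ + M * η := by nlinarith
            · calc |c (b i) w| * |c (z (l, r)) w| ≤ M * η :=
                    mul_le_mul (cB_le i w) (cT_le' _ hv w h5) (abs_nonneg _) hM0.le
                _ ≤ L * σ + M * η := by nlinarith))).1
          have h8 : (n : ℝ) * (L * σ + M * η) ≤ τ / 4 + η := by nlinarith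
          linarith
      · push Not at hz1
        have hnb : ∀ w, ¬ nb a z v w := by
          rintro w ⟨i', r, h, _⟩
          exact hz1 _ h
        have e3 : |sgn G (b i) v * (ε (b i) * cT G a z L η v (a i))| ≤ η := by
          rw [abs_mul, abs_mul, sgn_abs, hεabs', one_mul, one_mul]
          exact bT' _ _ (hnb _)
        have h3 := (abs_le.1 e3).1
        have e4 : sgn G (b i) v * (1 * cB G b z x ρ M σ τ η i v) = 3 * η := by
          rw [vB0 i v hz1]
          have h1 := sgn_mul G (b i) v
          linear_combination (3 * η) * h1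
        have hN := (abs_le.1 (sumle (b i) v (M * η) (fun w => by
          rw [abs_mul]
          exact mul_le_mul (cB_le i w) (cT_le' _ hv w (hnb _)) (abs_nonneg _) hM0.le))).1
        have h8 : (n : ℝ) * (M * η) ≤ η := by nlinarith
        rw [e4]
        linarith
  -- two vertices of the range of `b`
  have QQ : ∀ i j, i < j → η ≤ sgn G (b i) (b j) * F (b i) (b j) := by
    intro i j hij
    have hijne : i ≠ j := hij.ne
    have hne : st a b hab (b i) ≠ st a b hab (b j) := by
      rw [st_b a b hab hb, st_b a b hab hb]
      intro h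
      exact hijne (ha (congrArg Subtype.val h))
    have e1 : |c (b j) (st a b hab (b i))| ≤ 3 * η := by
      rw [cb j _ hne, st_b a b hab hb]
      exact bB0 j _ (fun p => hazne i p)
    have e2 : |c (b i) (st a b hab (b j))| ≤ 3 * η := by
      rw [cb i _ hne.symm, st_b a b hab hb]
      exact bB0 i _ (fun p => hazne j p)
    set w0 : Sites b := ⟨z (i, ρ i j), hzb _⟩ with hw0
    have hw0st : ∀ m : Fin s, w0 ≠ st a b hab (b m) := by
      intro m h
      rw [st_b a b hab hb] at h
      exact hazne m _ (congrArg Subtype.val h).symm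
    have hci : c (b i) w0 = M * x i (ρ i j) := by
      rw [cb i w0 (hw0st i)]
      simp only [hw0]
      rw [vBz, if_pos rfl]
    have hcj : c (b j) w0 = σ * sgn G (b j) (z (i, ρ i j)) := by
      rw [cb j w0 (hw0st j)]
      simp only [hw0]
      rw [vBz, if_neg hijne, if_pos ⟨hij, rfl⟩]
    have hsum : ∑ w, c (b i) w * c (b j) w = M * σ * sgn G (b i) (b j) +
        ∑ w ∈ univ.erase w0, c (b i) w * c (b j) w := by
      rw [← add_sum_erase univ _ (mem_univ w0), hci, hcj, ← hρ i j hij]
      ring
    have hrest : |∑ w ∈ univ.erase w0, c (b i) w * c (b j) w| ≤ n * (M * τ + σ * σ) := by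
      refine (abs_sum_le_sum_abs _ _).trans ?_
      calc ∑ w ∈ univ.erase w0, |c (b i) w * c (b j) w|
          ≤ ∑ _w ∈ univ.erase w0, (M * τ + σ * σ) := by
            apply sum_le_sum
            intro w hw
            have hww : w ≠ w0 := (mem_erase.1 hw).1
            have hMτ : 0 ≤ M * τ := by positivity
            have hσσ : 0 ≤ σ * σ := by positivity
            rw [abs_mul]
            by_cases h1 : w = st a b hab (b i)
            · rw [h1, hst0, abs_zero, zero_mul]; linarith
            by_cases h2 : w = st a b hab (b j)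
            · rw [h2, hst0, abs_zero, mul_zero]; linarith
            rw [cb i w h1, cb j w h2]
            by_cases h3 : ∃ p, w.1 = z p
            · obtain ⟨⟨l, r⟩, hp⟩ := h3
              rw [hp]
              by_cases hli : l = i
              · -- the block of `i`, not the chosen vertex
                subst hli
                have hr : ¬ (l < j ∧ r = ρ l j) := by
                  rintro ⟨_, h⟩
                  apply hww
                  apply Subtype.ext
                  rw [hp, h]
                have := mul_le_mul (bB l (z (l, r))) (bBz' j l r hijne hr) (abs_nonneg _) hM0.le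
                linarith
              · by_cases hlj : l = j
                · subst hlj
                  have hr : ¬ (l < i ∧ r = ρ l i) := fun h => absurd (h.1.trans hij) (lt_irrefl _)
                  have := mul_le_mul (bBz' i l r hli hr) (bB l (z (l, r))) (abs_nonneg _) hτ0.le
                  nlinarith
                · have := mul_le_mul (bBz i l r hli) (bBz j l r hlj) (abs_nonneg _) hσ0.le
                  linarith
            · push Not at h3
              have h4 := (bB0 i w.1 h3).trans (show 3 * η ≤ σ by linarith)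
              have h5 := (bB0 j w.1 h3).trans (show 3 * η ≤ σ by linarith)
              have := mul_le_mul h4 h5 (abs_nonneg _) hσ0.le
              linarith
        _ = (univ.erase w0).card * (M * τ + σ * σ) := by rw [sum_const, nsmul_eq_mul]
        _ ≤ n * (M * τ + σ * σ) := by
            have h1 : (univ.erase w0).card ≤ n := (card_le_univ _).trans hcardn
            have h2 : ((univ.erase w0).card : ℝ) ≤ n := by exact_mod_cast h1
            exact mul_le_mul_of_nonneg_right h2 (by positivity)
    have hrest2 : (n : ℝ) * (M * τ + σ * σ) = M * σ / 4 := by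
      calc (n : ℝ) * (M * τ + σ * σ) = M * (n * τ) + σ * (n * σ) := by ring
        _ = M * σ / 4 := by rw [hnτ, hnσ]; ring
    rw [hrest2] at hrest
    have h1 : |sgn G (b i) (b j) * (ε (b i) * c (b j) (st a b hab (b i)))| ≤ 3 * η := by
      rw [abs_mul, abs_mul, sgn_abs, hεabs', one_mul, one_mul]
      exact e1
    have h2 : |sgn G (b i) (b j) * (ε (b j) * c (b i) (st a b hab (b j)))| ≤ 3 * η := by
      rw [abs_mul, abs_mul, sgn_abs, hεabs', one_mul, one_mul]
      exact e2
    have h3 : |sgn G (b i) (b j) * ∑ w ∈ univ.erase w0, c (b i) w * c (b j) w| ≤ M * σ / 4 := by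
      rw [abs_mul, sgn_abs, one_mul]
      exact hrest
    have h4 := (abs_le.1 h1).1
    have h5 := (abs_le.1 h2).1
    have h6 := (abs_le.1 h3).1
    have h7 : sgn G (b i) (b j) * (M * σ * sgn G (b i) (b j)) = 128 * η := by
      have := sgn_mul G (b i) (b j)
      rw [hησ]
      linear_combination (M * σ) * this
    rw [hFip, if_neg hne, hsum]
    have e : ∀ q A B C R : ℝ, q * (0 + A + B + (C + R)) = q * A + q * B + q * C + q * R := by
      intro q A B C R
      ring
    rw [e, h7]
    have h8 : M * σ / 4 = 32 * η := by rw [hησ]; ring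
    linarith
  have all : ∀ u v, u ≠ v → η ≤ sgn G u v * F u v := by
    intro u v huv
    by_cases hu : u ∈ univ.image b
    · obtain ⟨i, -, rfl⟩ := mem_image.1 hu
      by_cases hv : v ∈ univ.image b
      · obtain ⟨j, -, rfl⟩ := mem_image.1 hv
        rcases lt_trichotomy i j with h | h | h
        · exact QQ i j h
        · exact absurd (by rw [h]) huv
        · rw [sgn_comm, sym]
          exact QQ j i h
      · exact QT i v hv
    · by_cases hv : v ∈ univ.image b
      · obtain ⟨j, -, rfl⟩ := mem_image.1 hv
        rw [sgn_comm, sym]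
        exact QT j u hu
      · exact TT u v huv hu hv
  apply class_of_margin' G d hcard
    (fun v w => (if w = st a b hab v then ε v else 0) + c v w) (η / 2) (by linarith) (by linarith)
  · intro v
    have h := hFip v v
    rw [if_pos rfl, hst0 v, hεabs] at h
    have h0 : 0 ≤ ∑ w, c v w * c v w := sum_nonneg fun w _ => mul_self_nonneg _
    have h1 := (abs_le.1 (small_sum n hcardn (c v) (c v) L L (c_le v) (c_le v) hL0.le hL0.le)).2
    have h2 : (n : ℝ) * (L * L) ≤ L / 32 := by nlinarith
    have h3 : F v v = ∑ w, ((if w = st a b hab v then ε v else 0) + c v w) *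
      ((if w = st a b hab v then ε v else 0) + c v w) := rfl
    rw [← h3, h]
    constructor <;> linarith
  · intro u v hadj
    have := all u v (G.ne_of_adj hadj)
    rw [sgn_adj G u v hadj, one_mul] at this
    show 2 * (η / 2) ≤ F u v
    linarith
  · intro u v huv hadj
    have h1 := all u v huv
    rw [sgn_nadj G u v hadj] at h1
    show F u v < η / 2
    linarith

end blocks

end Pool.Agent.Helper848.SD
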