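import Pool.Agent.Helper848.SD.Rich

set_option autoImplicit false

/-!
# Many rich pairs or a large independent set
-/

namespace Pool.Agent.Helper848.SD

open Finset

variable {V : Type} [Fintype V] [DecidableEq V]

open Classical in
/-- the vertices forming an odd triple with `u` and `v` -/
noncomputable def odd (G : SimpleGraph V) (u v : V) : Finset V :=
  univ.filter fun w => w ≠ u ∧ w ≠ v ∧ sgn G u w * sgn G v w = sgn G u v

theorem mem_odd (G : SimpleGraph V) (u v w : V) :
    w ∈ odd G u v ↔ w ≠ u ∧ w ≠ v ∧ sgn G u w * sgn G v w = sgn G u v := by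
  classical
  simp [odd]

omit [Fintype V] [DecidableEq V] in
theorem sgn_cases (G : SimpleGraph V) (u v : V) : sgn G u v = 1 ∨ sgn G u v = -1 := by
  unfold sgn
  split_ifs
  · exact Or.inl rfl
  · exact Or.inr rfl

theorem odd_comm (G : SimpleGraph V) (u v : V) : odd G u v = odd G v u := by
  ext w
  rw [mem_odd, mem_odd, sgn_comm G v u, mul_comm (sgn G v w)]
  tauto

theorem odd_swap (G : SimpleGraph V) (u v w : V) (h : v ∈ odd G u w) : u ∈ odd G v w := by
  rw [mem_odd] at h ⊢
  obtain ⟨h1, h2, h3⟩ := h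
  refine ⟨h1.symm, ?_, ?_⟩
  · rintro rfl
    rw [sgn_mul, sgn_nadj G u u (G.loopless.irrefl u)] at h3
    norm_num at h3
  · rw [sgn_comm G w v] at h3
    rw [sgn_comm G v u, sgn_comm G w u, ← h3, ← mul_assoc, sgn_mul, one_mul]

/-- a large set all of whose pairs lie in many odd triples gives the data of the rich case -/
theorem rich_data (G : SimpleGraph V) (k : ℕ) (S : Finset V) (hS : S.card = k)
    (h2k : 2 * k ≤ Fintype.card V)
    (hrich : ∀ u ∈ S, ∀ v ∈ S, u ≠ v → 2 * k + Fintype.card (Pr k) ≤ (odd G u v).card) :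
    ∃ (a b : Fin k → V) (g : Pr k → V), Function.Injective a ∧ Function.Injective b ∧
      (∀ i, a i ∉ univ.image b) ∧ Function.Injective g ∧ (∀ p, g p ∉ univ.image b) ∧
      (∀ p, g p ∉ univ.image a) ∧
      ∀ p : Pr k, sgn G (b (lo p)) (g p) * sgn G (b p.1) (g p) = sgn G (b (lo p)) (b p.1) := by
  obtain ⟨A, hA1, hA2⟩ : ∃ A ⊆ Sᶜ, A.card = k := by
    apply exists_subset_card_eq
    rw [card_compl, hS]
    omega
  let eS := S.equivFinOfCardEq hS
  let eA := A.equivFinOfCardEq hA2
  set b : Fin k → V := fun i => (eS.symm i).1 with hb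
  set a : Fin k → V := fun i => (eA.symm i).1 with ha
  have hbi : Function.Injective b := fun i j h => eS.symm.injective (Subtype.ext h)
  have hai : Function.Injective a := fun i j h => eA.symm.injective (Subtype.ext h)
  have hbS : ∀ i, b i ∈ S := fun i => (eS.symm i).2
  have haA : ∀ i, a i ∈ A := fun i => (eA.symm i).2
  have himb : univ.image b ⊆ S := by
    intro v hv
    obtain ⟨i, -, rfl⟩ := mem_image.1 hv
    exact hbS i
  have hima : univ.image a ⊆ A := by
    intro v hv
    obtain ⟨i, -, rfl⟩ := mem_image.1 hv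
    exact haA i
  let t : Pr k → Finset V := fun p => odd G (b (lo p)) (b p.1) \ (S ∪ A)
  have ht : ∀ p, Fintype.card (Pr k) ≤ (t p).card := by
    intro p
    have hlt : (lo p).val < p.1.val := p.2.2
    have hne : b (lo p) ≠ b p.1 := fun h => by
      have := hbi h
      rw [this] at hlt
      exact lt_irrefl _ hlt
    have h1 := hrich _ (hbS (lo p)) _ (hbS p.1) hne
    have h2 : (odd G (b (lo p)) (b p.1)).card - (S ∪ A).card ≤ (t p).card := le_card_sdiff _ _
    have h3 : (S ∪ A).card ≤ 2 * k := by
      refine (card_union_le _ _).trans ?_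
      rw [hS, hA2]
      omega
    omega
  obtain ⟨g, hg1, hg2⟩ := (all_card_le_biUnion_card_iff_exists_injective t).1 (by
    intro s
    rcases s.eq_empty_or_nonempty with rfl | ⟨p, hp⟩
    · simp
    · calc s.card ≤ Fintype.card (Pr k) := card_le_univ _
        _ ≤ (t p).card := ht p
        _ ≤ (s.biUnion t).card := card_le_card (subset_biUnion_of_mem t hp))
  refine ⟨a, b, g, hai, hbi, ?_, hg1, ?_, ?_, ?_⟩
  · intro i hi
    exact (mem_compl.1 (hA1 (haA i))) (himb hi)
  · intro p hp
    have := (mem_sdiff.1 (hg2 p)).2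
    exact this (mem_union_left _ (himb hp))
  · intro p hp
    have := (mem_sdiff.1 (hg2 p)).2
    exact this (mem_union_right _ (hima hp))
  · intro p
    exact ((mem_odd G _ _ _).1 (mem_sdiff.1 (hg2 p)).1).2.2

/-- without a rich set there is a large independent set -/
theorem indep_of_poor (G : SimpleGraph V) (k K m : ℕ) (hk : 1 ≤ k) (hK : 1 ≤ K)
    (hm : 4 * k * K ≤ m) (hn : k * (m + 1) ≤ Fintype.card V)
    (hpoor : ¬ ∃ S : Finset V, S.card = k ∧ ∀ u ∈ S, ∀ v ∈ S, u ≠ v → K ≤ (odd G u v).card) :
    ∃ J : Finset V, J.card = 2 * k ∧ ∀ u ∈ J, ∀ v ∈ J, ¬ G.Adj u v := by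
  classical
  -- a maximal rich set
  let F : Finset (Finset V) := univ.filter fun C => ∀ u ∈ C, ∀ v ∈ C, u ≠ v → K ≤ (odd G u v).card
  have hV : 0 < Fintype.card V := by
    have : 0 < k * (m + 1) := by positivity
    omega
  obtain ⟨v0⟩ : Nonempty V := Fintype.card_pos_iff.1 hV
  have hF1 : ({v0} : Finset V) ∈ F := by
    simp only [F, mem_filter, mem_univ, true_and, mem_singleton]
    rintro u rfl v rfl h
    exact absurd rfl h
  obtain ⟨C, hCF, hCmax⟩ := exists_max_image F card ⟨_, hF1⟩
  have hCr : ∀ u ∈ C, ∀ v ∈ C, u ≠ v → K ≤ (odd G u v).card := (mem_filter.1 hCF).2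
  have hC1 : 1 ≤ C.card := by
    have := hCmax _ hF1
    rwa [card_singleton] at this
  have hCk : C.card < k := by
    by_contra h
    push Not at h
    obtain ⟨S, hSC, hS⟩ := exists_subset_card_eq h
    exact hpoor ⟨S, hS, fun u hu v hv huv => hCr u (hSC hu) v (hSC hv) huv⟩
  have hex : ∀ v, v ∉ C → ∃ w ∈ C, (odd G v w).card < K := by
    intro v hv
    by_contra h
    push Not at h
    have hmem : insert v C ∈ F := by
      simp only [F, mem_filter, mem_univ, true_and]
      intro x hx y hy hxy
      rcases mem_insert.1 hx with rfl | hx'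
      · rcases mem_insert.1 hy with rfl | hy'
        · exact absurd rfl hxy
        · exact h y hy'
      · rcases mem_insert.1 hy with rfl | hy'
        · rw [odd_comm]
          exact h x hx'
        · exact hCr x hx' y hy' hxy
    have := hCmax _ hmem
    rw [card_insert_of_notMem hv] at this
    omega
  choose! φ hφC hφ using hex
  have hmaps : ∀ v ∈ Cᶜ, φ v ∈ C := fun v hv => hφC v (mem_compl.1 hv)
  have hcount : C.card * m ≤ (Cᶜ).card := by
    rw [card_compl]
    have h1 : C.card * m ≤ k * m := Nat.mul_le_mul_right _ hCk.le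
    have h2 : k * (m + 1) = k * m + k := by ring
    omega
  obtain ⟨w, hwC, hwU⟩ := exists_le_card_fiber_of_mul_le_card_of_maps_to hmaps
    (card_pos.1 hC1) hcount
  set U : Finset V := Cᶜ.filter fun v => φ v = w with hU
  have hUpoor : ∀ u ∈ U, (odd G u w).card < K := by
    intro u hu
    obtain ⟨h1, h2⟩ := mem_filter.1 hu
    have := hφ u (mem_compl.1 h1)
    rwa [h2] at this
  -- a maximal subset of `U` without odd triples with `w`
  let F2 : Finset (Finset V) := U.powerset.filter fun I => ∀ u ∈ I, ∀ v ∈ I, v ∉ odd G u w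
  have hF2 : (∅ : Finset V) ∈ F2 := by
    simp [F2]
  obtain ⟨I, hIF, hImax⟩ := exists_max_image F2 card ⟨_, hF2⟩
  have hIU : I ⊆ U := mem_powerset.1 (mem_filter.1 hIF).1
  have hIr : ∀ u ∈ I, ∀ v ∈ I, v ∉ odd G u w := (mem_filter.1 hIF).2
  have hcover : U ⊆ I.biUnion fun i => insert i (odd G i w) := by
    intro u hu
    by_contra hcon
    have huI : u ∉ I := fun h => hcon (mem_biUnion.2 ⟨u, h, mem_insert_self _ _⟩)
    have hno : ∀ i ∈ I, u ∉ odd G i w := fun i hi h =>
      hcon (mem_biUnion.2 ⟨i, hi, mem_insert_of_mem h⟩)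
    have hmem : insert u I ∈ F2 := by
      simp only [F2, mem_filter, mem_powerset]
      refine ⟨insert_subset hu hIU, ?_⟩
      intro x hx y hy
      rcases mem_insert.1 hx with rfl | hx'
      · rcases mem_insert.1 hy with rfl | hy'
        · intro h
          exact ((mem_odd G _ _ _).1 h).1 rfl
        · intro h
          exact hno y hy' (odd_swap G _ _ _ h)
      · rcases mem_insert.1 hy with rfl | hy'
        · exact hno x hx'
        · exact hIr x hx' y hy'
    have := hImax _ hmem
    rw [card_insert_of_notMem huI] at this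
    omega
  have hUcard : U.card ≤ I.card * K := by
    refine (card_le_card hcover).trans ?_
    refine card_biUnion_le_card_mul _ _ _ ?_
    intro i hi
    have := hUpoor i (hIU hi)
    exact (card_insert_le _ _).trans this
  have hI4 : 4 * k ≤ I.card := by
    by_contra h
    push Not at h
    have h1 : I.card * K < 4 * k * K := Nat.mul_lt_mul_of_pos_right h hK
    have h2 : m ≤ U.card := hwU
    omega
  have hpair : ∀ u ∈ I, ∀ v ∈ I, u ≠ v → sgn G u v = -(sgn G u w * sgn G v w) := by
    intro u hu v hv huv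
    have hwne : ∀ x ∈ I, x ≠ w := by
      intro x hx h
      have h1 := (mem_filter.1 (hIU hx)).1
      rw [h] at h1
      exact (mem_compl.1 h1) hwC
    have h1 := hIr u hu v hv
    rw [mem_odd] at h1
    push Not at h1
    have h2 := h1 huv.symm (hwne v hv)
    rw [sgn_comm G w v] at h2
    rcases sgn_cases G u v with h5 | h5 <;> rcases sgn_cases G u w with h6 | h6 <;>
      rcases sgn_cases G v w with h7 | h7 <;> rw [h5, h6, h7] at h2 ⊢ <;>
      first
        | (norm_num; done)
        | (exfalso; norm_num at h2)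
  have hsplit : 2 * k ≤ (I.filter fun u => G.Adj u w).card ∨
      2 * k ≤ (I.filter fun u => ¬ G.Adj u w).card := by
    have := card_filter_add_card_filter_not (s := I) (fun u => G.Adj u w)
    omega
  have hfin : ∀ I' : Finset V, I' ⊆ I → 2 * k ≤ I'.card →
      (∀ u ∈ I', ∀ v ∈ I', sgn G u w = sgn G v w) →
      ∃ J : Finset V, J.card = 2 * k ∧ ∀ u ∈ J, ∀ v ∈ J, ¬ G.Adj u v := by
    intro I' hI' hc hs
    obtain ⟨J, hJ1, hJ2⟩ := exists_subset_card_eq hc
    refine ⟨J, hJ2, fun u hu v hv hadj => ?_⟩
    have huv := G.ne_of_adj hadj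
    have h1 := hpair u (hI' (hJ1 hu)) v (hI' (hJ1 hv)) huv
    rw [hs u (hJ1 hu) v (hJ1 hv), sgn_mul, sgn_adj G u v hadj] at h1
    norm_num at h1
  rcases hsplit with h | h
  · refine hfin _ (filter_subset _ _) h ?_
    intro u hu v hv
    rw [sgn_adj G u w (mem_filter.1 hu).2, sgn_adj G v w (mem_filter.1 hv).2]
  · refine hfin _ (filter_subset _ _) h ?_
    intro u hu v hv
    rw [sgn_nadj G u w (mem_filter.1 hu).2, sgn_nadj G v w (mem_filter.1 hv).2]

/-- every graph on `n` vertices, `n` large compared with `k`, lies in `𝒮_(n - k - 1)` -/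
theorem class_saving (G : SimpleGraph V) (k d : ℕ) (hk : 1 ≤ k)
    (hn : k * (4 * k * (2 * k + Fintype.card (Pr k)) + 1) ≤ Fintype.card V)
    (hd : Fintype.card V - k = d + 1) : SphereClass d G := by
  have hV : 1 ≤ Fintype.card V := by
    have : 0 < k * (4 * k * (2 * k + Fintype.card (Pr k)) + 1) := by positivity
    omega
  by_cases h : ∃ S : Finset V, S.card = k ∧ ∀ u ∈ S, ∀ v ∈ S, u ≠ v →
      2 * k + Fintype.card (Pr k) ≤ (odd G u v).card
  · obtain ⟨S, hS, hrich⟩ := h
    have h2k : 2 * k ≤ Fintype.card V := by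
      refine le_trans ?_ hn
      have h1 : 0 < 4 * k * (2 * k + Fintype.card (Pr k)) := by positivity
      calc 2 * k = k * 2 := by ring
        _ ≤ k * (4 * k * (2 * k + Fintype.card (Pr k)) + 1) :=
          Nat.mul_le_mul_left k (Nat.succ_le_succ h1)
    obtain ⟨a, b, g, h1, h2, h3, h4, h5, h6, h7⟩ := rich_data G k S hS h2k hrich
    exact class_rich G _ rfl hV a b h1 h2 h3 g h4 h5 h6 h7 d hd
  · obtain ⟨J, hJ, hind⟩ := indep_of_poor G k (2 * k + Fintype.card (Pr k))
      (4 * k * (2 * k + Fintype.card (Pr k))) hk (by omega) le_rfl hn h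
    have hJ' : J.card = k + k := by omega
    let e := J.equivFinOfCardEq hJ'
    set a : Fin k → V := fun i => (e.symm (Fin.castAdd k i)).1 with ha
    set b : Fin k → V := fun i => (e.symm (Fin.natAdd k i)).1 with hb
    have haJ : ∀ i, a i ∈ J := fun i => (e.symm (Fin.castAdd k i)).2
    have hbJ : ∀ i, b i ∈ J := fun i => (e.symm (Fin.natAdd k i)).2
    have hai : Function.Injective a := fun i j h =>
      Fin.castAdd_injective _ _ (e.symm.injective (Subtype.ext h))
    have hbi : Function.Injective b := fun i j h =>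
      Fin.natAdd_injective _ _ (e.symm.injective (Subtype.ext h))
    have hab : ∀ i, a i ∉ univ.image b := by
      intro i hi
      obtain ⟨j, -, h⟩ := mem_image.1 hi
      have h1 := e.symm.injective (Subtype.ext h)
      have h2 := congrArg Fin.val h1
      simp only [Fin.val_natAdd, Fin.val_castAdd] at h2
      omega
    have hmem : ∀ u, u ∈ univ.image a ∪ univ.image b → u ∈ J := by
      intro u hu
      rcases mem_union.1 hu with h | h
      · obtain ⟨i, -, rfl⟩ := mem_image.1 h
        exact haJ i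
      · obtain ⟨i, -, rfl⟩ := mem_image.1 h
        exact hbJ i
    exact class_indep G _ rfl hV a b hai hbi hab
      (fun u v hu hv => hind u (hmem u hu) v (hmem v hv)) d hd

end Pool.Agent.Helper848.SD
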