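import Pool.Agent.Helper848.SD.Comb
import Pool.Agent.Helper848.SD.Block

set_option autoImplicit false

/-!
# Disjoint rich pairs or a large independent set
-/

namespace Pool.Agent.Helper848.SD

open Finset

/-- fewer than `2 ^ t` sign vectors of length `t` are all met by one sign vector -/
theorem sign_choice (s t : ℕ) (hst : s < 2 ^ t) (y : Fin s → Fin t → ℝ)
    (hy : ∀ j r, y j r = 1 ∨ y j r = -1) :
    ∃ x : Fin t → ℝ, (∀ r, |x r| = 1) ∧ ∀ j, ∃ r, x r * y j r = 1 := by
  classical
  let φ : Fin s → (Fin t → Bool) := fun j r => decide (y j r = -1)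
  have hns : ¬ Function.Surjective φ := by
    intro h
    have := Fintype.card_le_of_surjective φ h
    rw [Fintype.card_fun, Fintype.card_bool, Fintype.card_fin, Fintype.card_fin] at this
    omega
  unfold Function.Surjective at hns
  push Not at hns
  obtain ⟨β, hβ⟩ := hns
  refine ⟨fun r => if β r = true then 1 else -1, ?_, ?_⟩
  · intro r
    dsimp only
    split_ifs <;> norm_num
  · intro j
    obtain ⟨r, hr⟩ := Function.ne_iff.1 (hβ j)
    refine ⟨r, ?_⟩
    dsimp only
    by_cases hb : β r = true
    · rw [if_pos hb, one_mul]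
      rcases hy j r with h | h
      · exact h
      · exfalso
        apply hr
        rw [hb]
        simp only [φ, h, decide_true]
    · rw [if_neg hb]
      rcases hy j r with h | h
      · exfalso
        apply hr
        have h2 : β r = false := by simpa using hb
        rw [h2]
        simp only [φ, h, decide_eq_false_iff_not]
        norm_num
      · rw [h]
        norm_num

variable {V : Type} [Fintype V] [DecidableEq V]

/-- disjoint rich pairs have disjoint blocks of common odd partners -/
theorem block_data (G : SimpleGraph V) (s t : ℕ) (a b : Fin s → V)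
    (hrich : ∀ i, 2 * s + s * t ≤ (odd G (b i) (a i)).card) :
    ∃ z : Fin s × Fin t → V, Function.Injective z ∧ (∀ p, z p ∉ univ.image b) ∧
      (∀ p, z p ∉ univ.image a) ∧
      ∀ i r, sgn G (b i) (z (i, r)) * sgn G (a i) (z (i, r)) = sgn G (b i) (a i) := by
  classical
  let T : Fin s × Fin t → Finset V := fun p =>
    odd G (b p.1) (a p.1) \ (univ.image b ∪ univ.image a)
  have hT : ∀ p, Fintype.card (Fin s × Fin t) ≤ (T p).card := by
    intro p
    have h1 := hrich p.1
    have h2 : (odd G (b p.1) (a p.1)).card - (univ.image b ∪ univ.image a).card ≤ (T p).card :=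
      le_card_sdiff _ _
    have h3 : (univ.image b ∪ univ.image a).card ≤ 2 * s := by
      refine (card_union_le _ _).trans ?_
      have h4 : (univ.image b).card ≤ s := by
        simpa using card_image_le (s := (univ : Finset (Fin s))) (f := b)
      have h5 : (univ.image a).card ≤ s := by
        simpa using card_image_le (s := (univ : Finset (Fin s))) (f := a)
      omega
    rw [Fintype.card_prod, Fintype.card_fin, Fintype.card_fin]
    omega
  obtain ⟨z, hz1, hz2⟩ := (all_card_le_biUnion_card_iff_exists_injective T).1 (by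
    intro S
    rcases S.eq_empty_or_nonempty with rfl | ⟨p, hp⟩
    · simp
    · calc S.card ≤ Fintype.card (Fin s × Fin t) := card_le_univ _
        _ ≤ (T p).card := hT p
        _ ≤ (S.biUnion T).card := card_le_card (subset_biUnion_of_mem T hp))
  refine ⟨z, hz1, ?_, ?_, ?_⟩
  · intro p hp
    exact (mem_sdiff.1 (hz2 p)).2 (mem_union_left _ hp)
  · intro p hp
    exact (mem_sdiff.1 (hz2 p)).2 (mem_union_right _ hp)
  · intro i r
    exact ((mem_odd G _ _ _).1 (mem_sdiff.1 (hz2 (i, r))).1).2.2

/-- `s` disjoint rich pairs, or a large set all of whose pairs are poor -/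
theorem matching (G : SimpleGraph V) (K s : ℕ) :
    (∃ a b : Fin s → V, Function.Injective a ∧ Function.Injective b ∧ (∀ i j, a i ≠ b j) ∧
      ∀ i, K ≤ (odd G (b i) (a i)).card) ∨
    ∃ W : Finset V, Fintype.card V ≤ W.card + 2 * s ∧
      ∀ u ∈ W, ∀ v ∈ W, u ≠ v → (odd G u v).card < K := by
  classical
  induction s with
  | zero =>
    exact Or.inl ⟨Fin.elim0, Fin.elim0, fun i => i.elim0, fun i => i.elim0, fun i => i.elim0,
      fun i => i.elim0⟩
  | succ s ih =>
    rcases ih with ⟨a, b, ha, hb, hab, hr⟩ | ⟨W, hW, hp⟩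
    · by_cases h : ∀ u ∈ (univ.image a ∪ univ.image b)ᶜ, ∀ v ∈ (univ.image a ∪ univ.image b)ᶜ,
          u ≠ v → (odd G u v).card < K
      · refine Or.inr ⟨_, ?_, h⟩
        rw [card_compl]
        have h3 : (univ.image a ∪ univ.image b).card ≤ 2 * s := by
          refine (card_union_le _ _).trans ?_
          have h4 : (univ.image b).card ≤ s := by
            simpa using card_image_le (s := (univ : Finset (Fin s))) (f := b)
          have h5 : (univ.image a).card ≤ s := by
            simpa using card_image_le (s := (univ : Finset (Fin s))) (f := a)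
          omega
        omega
      · push Not at h
        obtain ⟨u, hu, v, hv, huv, hK⟩ := h
        simp only [mem_compl, mem_union, mem_image, mem_univ, true_and, not_or, not_exists]
          at hu hv
        left
        refine ⟨Fin.cons u a, Fin.cons v b, ?_, ?_, ?_, ?_⟩
        · rw [Fin.cons_injective_iff]
          refine ⟨?_, ha⟩
          rintro ⟨i, hi⟩
          exact hu.1 i hi
        · rw [Fin.cons_injective_iff]
          refine ⟨?_, hb⟩
          rintro ⟨i, hi⟩
          exact hv.2 i hi
        · intro i j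
          refine Fin.cases ?_ (fun i => ?_) i
          · refine Fin.cases ?_ (fun j => ?_) j
            · simpa using huv
            · simp only [Fin.cons_zero, Fin.cons_succ]
              exact fun h => hu.2 j h.symm
          · refine Fin.cases ?_ (fun j => ?_) j
            · simp only [Fin.cons_zero, Fin.cons_succ]
              exact fun h => hv.1 i h
            · simp only [Fin.cons_succ]
              exact hab i j
        · intro i
          refine Fin.cases ?_ (fun i => ?_) i
          · simp only [Fin.cons_zero]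
            rw [odd_comm]
            exact hK
          · simp only [Fin.cons_succ]
            exact hr i
    · exact Or.inr ⟨W, by omega, hp⟩

/-- a large set all of whose pairs are poor contains a large independent set -/
theorem indep_of_poor2 (G : SimpleGraph V) (k K : ℕ) (hK : 1 ≤ K) (W : Finset V)
    (hW : 4 * k * K + 1 ≤ W.card)
    (hpoor : ∀ u ∈ W, ∀ v ∈ W, u ≠ v → (odd G u v).card < K) :
    ∃ J : Finset V, J.card = 2 * k ∧ ∀ u ∈ J, ∀ v ∈ J, ¬ G.Adj u v := by
  classical
  obtain ⟨w, hwW⟩ : W.Nonempty := by
    rw [← card_pos]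
    omega
  set U : Finset V := W.erase w with hU
  have hUc : 4 * k * K ≤ U.card := by
    rw [hU, card_erase_of_mem hwW]
    omega
  have hUw : ∀ u ∈ U, u ≠ w := fun u hu => (mem_erase.1 hu).1
  have hUpoor : ∀ u ∈ U, (odd G u w).card < K := fun u hu =>
    hpoor u (mem_erase.1 hu).2 w hwW (hUw u hu)
  let F2 : Finset (Finset V) := U.powerset.filter fun I => ∀ u ∈ I, ∀ v ∈ I, v ∉ odd G u w
  have hF2 : (∅ : Finset V) ∈ F2 := by
    simp [F2]
  obtain ⟨I, hIF, hImax⟩ := exists_max_image F2 card ⟨_, hF2⟩
  have hIU : I ⊆ U := mem_powerset.1 (mem_filter.1 hIF).1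
  have hIr : ∀ u ∈ I, ∀ v ∈ I, v ∉ odd G u w := (mem_filter.1 hIF).2
  have hcover : U ⊆ I.biUnion fun i => insert i (odd G i w) := by
    intro u hu
    by_contra hcon
    have huI : u ∉ I := fun h => hcon (mem_biUnion.2 ⟨u, h, mem_insert_self _ _⟩)
    have hno : ∀ i ∈ I, u ∉ odd G i w := fun i hi h =>
      hcon (mem_biUnion.2 ⟨i, hi, mem_insert_of_mem h⟩)
    have hmem : insert u I ∈ F2 := by
      simp only [F2, mem_filter, mem_powerset]
      refine ⟨insert_subset hu hIU, ?_⟩
      intro x hx y hy
      rcases mem_insert.1 hx with rfl | hx'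
      · rcases mem_insert.1 hy with rfl | hy'
        · intro h
          exact ((mem_odd G _ _ _).1 h).1 rfl
        · intro h
          exact hno y hy' (odd_swap G _ _ _ h)
      · rcases mem_insert.1 hy with rfl | hy'
        · exact hno x hx'
        · exact hIr x hx' y hy'
    have := hImax _ hmem
    rw [card_insert_of_notMem huI] at this
    omega
  have hUcard : U.card ≤ I.card * K := by
    refine (card_le_card hcover).trans ?_
    refine card_biUnion_le_card_mul _ _ _ ?_
    intro i hi
    have := hUpoor i (hIU hi)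
    exact (card_insert_le _ _).trans this
  have hI4 : 4 * k ≤ I.card := by
    by_contra h
    push Not at h
    have h1 : I.card * K < 4 * k * K := Nat.mul_lt_mul_of_pos_right h hK
    omega
  have hpair : ∀ u ∈ I, ∀ v ∈ I, u ≠ v → sgn G u v = -(sgn G u w * sgn G v w) := by
    intro u hu v hv huv
    have h1 := hIr u hu v hv
    rw [mem_odd] at h1
    push Not at h1
    have h2 := h1 huv.symm (hUw v (hIU hv))
    rw [sgn_comm G w v] at h2
    rcases sgn_cases G u v with h5 | h5 <;> rcases sgn_cases G u w with h6 | h6 <;>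
      rcases sgn_cases G v w with h7 | h7 <;> rw [h5, h6, h7] at h2 ⊢ <;>
      first
        | (norm_num; done)
        | (exfalso; norm_num at h2)
  have hsplit : 2 * k ≤ (I.filter fun u => G.Adj u w).card ∨
      2 * k ≤ (I.filter fun u => ¬ G.Adj u w).card := by
    have := card_filter_add_card_filter_not (s := I) (fun u => G.Adj u w)
    omega
  have hfin : ∀ I' : Finset V, I' ⊆ I → 2 * k ≤ I'.card →
      (∀ u ∈ I', ∀ v ∈ I', sgn G u w = sgn G v w) →
      ∃ J : Finset V, J.card = 2 * k ∧ ∀ u ∈ J, ∀ v ∈ J, ¬ G.Adj u v := by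
    intro I' hI' hc hs
    obtain ⟨J, hJ1, hJ2⟩ := exists_subset_card_eq hc
    refine ⟨J, hJ2, fun u hu v hv hadj => ?_⟩
    have huv := G.ne_of_adj hadj
    have h1 := hpair u (hI' (hJ1 hu)) v (hI' (hJ1 hv)) huv
    rw [hs u (hJ1 hu) v (hJ1 hv), sgn_mul, sgn_adj G u v hadj] at h1
    norm_num at h1
  rcases hsplit with h | h
  · refine hfin _ (filter_subset _ _) h ?_
    intro u hu v hv
    rw [sgn_adj G u w (mem_filter.1 hu).2, sgn_adj G v w (mem_filter.1 hv).2]
  · refine hfin _ (filter_subset _ _) h ?_
    intro u hu v hv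
    rw [sgn_nadj G u w (mem_filter.1 hu).2, sgn_nadj G v w (mem_filter.1 hv).2]

/-- every graph on `n` vertices, `n` large compared with `s`, lies in `𝒮_(n - s - 1)` -/
theorem class_saving2 (G : SimpleGraph V) (s t d : ℕ) (hs : 1 ≤ s) (hst : s < 2 ^ t)
    (hn : 4 * s * (2 * s + s * t) + 2 * s + 1 ≤ Fintype.card V)
    (hd : Fintype.card V - s = d + 1) : SphereClass d G := by
  classical
  have hV : 1 ≤ Fintype.card V := by omega
  rcases matching G (2 * s + s * t) s with ⟨a, b, ha, hb, hab, hr⟩ | ⟨W, hW, hp⟩
  · obtain ⟨z, hz, hzb, hza, hodd⟩ := block_data G s t a b hr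
    have hx : ∀ i : Fin s, ∃ x : Fin t → ℝ, (∀ r, |x r| = 1) ∧
        ∀ j, ∃ r, x r * (sgn G (b j) (z (i, r)) * sgn G (b i) (b j)) = 1 := by
      intro i
      refine sign_choice s t hst (fun j r => sgn G (b j) (z (i, r)) * sgn G (b i) (b j)) ?_
      intro j r
      rcases sgn_cases G (b j) (z (i, r)) with h1 | h1 <;>
        rcases sgn_cases G (b i) (b j) with h2 | h2 <;> simp only [h1, h2] <;> norm_num
    choose x hx1 hx2 using hx
    choose ρ hρ using hx2
    refine class_block G _ rfl hV a b ha hb ?_ z hz hzb hza hodd x hx1 ρ ?_ d hd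
    · intro i hi
      obtain ⟨j, -, h⟩ := mem_image.1 hi
      exact hab i j h.symm
    · intro i j _
      have h1 := hρ i j
      have h2 := sgn_mul G (b i) (b j)
      calc x i (ρ i j) * sgn G (b j) (z (i, ρ i j))
          = x i (ρ i j) * sgn G (b j) (z (i, ρ i j)) *
            (sgn G (b i) (b j) * sgn G (b i) (b j)) := by rw [h2, mul_one]
        _ = x i (ρ i j) * (sgn G (b j) (z (i, ρ i j)) * sgn G (b i) (b j)) *
            sgn G (b i) (b j) := by ring
        _ = sgn G (b i) (b j) := by rw [h1, one_mul]
  · obtain ⟨J, hJ, hind⟩ := indep_of_poor2 G s (2 * s + s * t) (by omega) W (by omega) hp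
    have hJ' : J.card = s + s := by omega
    let e := J.equivFinOfCardEq hJ'
    set a : Fin s → V := fun i => (e.symm (Fin.castAdd s i)).1 with ha
    set b : Fin s → V := fun i => (e.symm (Fin.natAdd s i)).1 with hb
    have haJ : ∀ i, a i ∈ J := fun i => (e.symm (Fin.castAdd s i)).2
    have hbJ : ∀ i, b i ∈ J := fun i => (e.symm (Fin.natAdd s i)).2
    have hai : Function.Injective a := fun i j h =>
      Fin.castAdd_injective _ _ (e.symm.injective (Subtype.ext h))
    have hbi : Function.Injective b := fun i j h =>
      Fin.natAdd_injective _ _ (e.symm.injective (Subtype.ext h))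
    have hab : ∀ i, a i ∉ univ.image b := by
      intro i hi
      obtain ⟨j, -, h⟩ := mem_image.1 hi
      have h1 := e.symm.injective (Subtype.ext h)
      have h2 := congrArg Fin.val h1
      simp only [Fin.val_natAdd, Fin.val_castAdd] at h2
      omega
    have hmem : ∀ u, u ∈ univ.image a ∪ univ.image b → u ∈ J := by
      intro u hu
      rcases mem_union.1 hu with h | h
      · obtain ⟨i, -, rfl⟩ := mem_image.1 h
        exact haJ i
      · obtain ⟨i, -, rfl⟩ := mem_image.1 h
        exact hbJ i
    exact class_indep G _ rfl hV a b hai hbi hab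
      (fun u v hu hv => hind u (hmem u hu) v (hmem v hv)) d hd

end Pool.Agent.Helper848.SD
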