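import Pool.Agent.W599.DSN.Stm
import Pool.Agent.W369.DSN.NOSH
import Pool.Agent.W486.DSN.War
import Pool.Agent.W320.DSN.GEN
import Pool.Agent.W397.DSN.FIB

set_option autoImplicit false

/-!
# Counting sign patterns
-/

namespace Pool.Agent.Helper848.SD

open MvPolynomial Pool.Agent.W599.DSN

theorem warren : WAR := Pool.Agent.W486.DSN.war Pool.Agent.W320.DSN.gen Pool.Agent.W397.DSN.fib

theorem count_patterns (V : ℕ) (κ : Type) [Fintype κ] [DecidableEq κ]
    (F : κ → MvPolynomial (Fin V) ℝ) (hdeg : ∀ o, (F o).totalDegree ≤ 2) (ι : Type) [Fintype ι]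
    (z : ι → Fin V → ℝ)
    (hinj : ∀ a b, (∀ o, 0 ≤ eval (z a) (F o) ↔ 0 ≤ eval (z b) (F o)) → a = b) :
    Fintype.card ι ≤
      (∑ k ∈ Finset.range (V + 1), (Fintype.card κ + 1).choose k * 2 ^ k) * 5 ^ V := by
  classical
  obtain ⟨η, hη0, hη⟩ : ∃ η : ℝ, 0 < η ∧ ∀ (a : ι) (o : κ), eval (z a) (F o) < 0 →
      η < - eval (z a) (F o) := by
    obtain ⟨ε, hε, h⟩ := Pool.Agent.W486.DSN.exists_eps
      ((Finset.univ : Finset (ι × κ)).filter (fun x => eval (z x.1) (F x.2) < 0))
      (fun x => - eval (z x.1) (F x.2) / 2) (by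
        intro x hx
        have := (Finset.mem_filter.1 hx).2
        linarith)
    refine ⟨ε, hε, fun a o ho => ?_⟩
    have := h (a, o) (Finset.mem_filter.2 ⟨Finset.mem_univ _, ho⟩)
    simp only at this
    linarith
  set pat : ι → κ → ℝ := fun a o => if 0 ≤ eval (z a) (F o) then 1 else -1 with hpat
  have hpinj : Function.Injective pat := by
    intro a b hab
    apply hinj
    intro o
    have h1 := congrFun hab o
    simp only [hpat] at h1
    by_cases ha : 0 ≤ eval (z a) (F o)
    · by_cases hb : 0 ≤ eval (z b) (F o)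
      · exact ⟨fun _ => hb, fun _ => ha⟩
      · rw [if_pos ha, if_neg hb] at h1
        norm_num at h1
    · by_cases hb : 0 ≤ eval (z b) (F o)
      · rw [if_neg ha, if_pos hb] at h1
        norm_num at h1
      · exact ⟨fun h => absurd h ha, fun h => absurd h hb⟩
  have hcard : (Finset.image pat Finset.univ).card = Fintype.card ι := by
    rw [Finset.card_image_of_injective _ hpinj, Finset.card_univ]
  have hdeg' : ∀ o, (F o + C η).totalDegree ≤ 2 := by
    intro o
    refine (totalDegree_add _ _).trans (max_le (hdeg o) ?_)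
    rw [totalDegree_C]
    norm_num
  have hwar := warren V κ (fun o => F o + C η) hdeg' (Finset.image pat Finset.univ) (by
      intro s hs
      obtain ⟨a, -, rfl⟩ := Finset.mem_image.mp hs
      refine ⟨?_, z a, ?_⟩
      · intro o
        by_cases ho : 0 ≤ eval (z a) (F o)
        · left
          simp only [hpat, if_pos ho]
        · right
          simp only [hpat, if_neg ho]
      · intro o
        simp only [map_add, eval_C, hpat]
        by_cases ho : 0 ≤ eval (z a) (F o)
        · rw [if_pos ho]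
          linarith
        · rw [if_neg ho]
          have := hη a o (not_le.1 ho)
          linarith)
  rw [hcard] at hwar
  exact hwar

theorem binom_bound32 (V M : ℕ) (h : V ≤ M) :
    (∑ k ∈ Finset.range (V + 1), (M.choose k : ℝ) * 2 ^ k) ≤ 32 ^ V * (17 / 16) ^ M := by
  have h1 : ∀ k ∈ Finset.range (V + 1), (M.choose k : ℝ) * 2 ^ k ≤
      32 ^ V * ((1 / 16 : ℝ) ^ k * 1 ^ (M - k) * (M.choose k : ℝ)) := by
    intro k hk
    have hk' : k ≤ V := by
      rw [Finset.mem_range] at hk
      omega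
    have h2 : (2 : ℝ) ^ k ≤ 32 ^ V * (1 / 16) ^ k := by
      have h3 : (32 : ℝ) ^ k ≤ 32 ^ V := pow_le_pow_right₀ (by norm_num) hk'
      have h4 : (2 : ℝ) ^ k = 32 ^ k * (1 / 16) ^ k := by
        rw [← mul_pow]
        norm_num
      rw [h4]
      gcongr
    calc (M.choose k : ℝ) * 2 ^ k ≤ (M.choose k : ℝ) * (32 ^ V * (1 / 16) ^ k) := by
          gcongr
      _ = 32 ^ V * ((1 / 16 : ℝ) ^ k * 1 ^ (M - k) * (M.choose k : ℝ)) := by
          rw [one_pow]
          ring
  have h5 : ((1 / 16 : ℝ) + 1) ^ M = ∑ k ∈ Finset.range (M + 1),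
      (1 / 16 : ℝ) ^ k * 1 ^ (M - k) * (M.choose k : ℝ) := add_pow _ _ _
  calc (∑ k ∈ Finset.range (V + 1), (M.choose k : ℝ) * 2 ^ k)
      ≤ ∑ k ∈ Finset.range (V + 1), 32 ^ V * ((1 / 16 : ℝ) ^ k * 1 ^ (M - k) * (M.choose k : ℝ)) :=
        Finset.sum_le_sum h1
    _ = 32 ^ V * ∑ k ∈ Finset.range (V + 1),
        ((1 / 16 : ℝ) ^ k * 1 ^ (M - k) * (M.choose k : ℝ)) := by
        rw [Finset.mul_sum]
    _ ≤ 32 ^ V * ∑ k ∈ Finset.range (M + 1),
        ((1 / 16 : ℝ) ^ k * 1 ^ (M - k) * (M.choose k : ℝ)) := by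
        apply mul_le_mul_of_nonneg_left _ (by positivity)
        apply Finset.sum_le_sum_of_subset_of_nonneg
        · intro k hk
          rw [Finset.mem_range] at hk ⊢
          omega
        · intro k _ _
          positivity
    _ = 32 ^ V * (17 / 16) ^ M := by
        rw [← h5]
        norm_num

/-- the numerical comparison -/
theorem numerics (n d N : ℕ) (hd : 1 ≤ d) (hn : 18 * (d + 3) + 1 ≤ n) (hN : 2 * N = n * (n - 1)) :
    (∑ k ∈ Finset.range (n * (d + 3) + 1), (n * n + 1).choose k * 2 ^ k) * 5 ^ (n * (d + 3)) <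
      2 ^ N := by
  obtain ⟨n', rfl⟩ : ∃ n', n = n' + 1 := ⟨n - 1, by omega⟩
  rw [Nat.add_sub_cancel] at hN
  set n := n' + 1 with hndef
  set V := n * (d + 3) with hV
  set M := n * n + 1 with hM
  have h72 : 72 ≤ n' := by omega
  have hVN : 9 * V ≤ N := by
    have : 18 * (d + 3) ≤ n' := by omega
    have h2 : n * (18 * (d + 3)) ≤ n * n' := Nat.mul_le_mul_left _ this
    have h3 : 2 * (9 * V) = n * (18 * (d + 3)) := by rw [hV]; ring
    omega
  have hMN : 9 * M ≤ 19 * N := by
    have h1 : 2 * (9 * M) = 18 * ((n' + 1) * (n' + 1)) + 18 := by rw [hM, hndef]; ring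
    have h2 : 2 * (19 * N) = 19 * ((n' + 1) * n') := by
      calc 2 * (19 * N) = 19 * (2 * N) := by ring
        _ = 19 * ((n' + 1) * n') := by rw [hN]
    have h3 : 18 * ((n' + 1) * (n' + 1)) + 18 ≤ 19 * ((n' + 1) * n') := by nlinarith
    omega
  have hVM : V ≤ M := by
    have : d + 3 ≤ n := by omega
    have := Nat.mul_le_mul_left n this
    omega
  have hN0 : 0 < N := by
    have : 0 < n * n' := by positivity
    omega
  have hb := binom_bound32 V M hVM
  have hreal : (∑ k ∈ Finset.range (V + 1), (M.choose k : ℝ) * 2 ^ k) * 5 ^ V < 2 ^ N := by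
    have h1 : (∑ k ∈ Finset.range (V + 1), (M.choose k : ℝ) * 2 ^ k) * 5 ^ V ≤
        160 ^ V * (17 / 16) ^ M := by
      calc (∑ k ∈ Finset.range (V + 1), (M.choose k : ℝ) * 2 ^ k) * 5 ^ V
          ≤ (32 ^ V * (17 / 16) ^ M) * 5 ^ V := by gcongr
        _ = 160 ^ V * (17 / 16) ^ M := by
            have : (160 : ℝ) ^ V = 32 ^ V * 5 ^ V := by
              rw [← mul_pow]
              norm_num
            rw [this]
            ring
    refine lt_of_le_of_lt h1 ?_
    have h2 : ((160 : ℝ) ^ V * (17 / 16) ^ M) ^ 9 < (2 ^ N) ^ 9 := by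
      calc ((160 : ℝ) ^ V * (17 / 16) ^ M) ^ 9 = 160 ^ (9 * V) * (17 / 16) ^ (9 * M) := by
            rw [mul_pow, ← pow_mul, ← pow_mul, mul_comm V 9, mul_comm M 9]
        _ ≤ 160 ^ N * (17 / 16) ^ (19 * N) := by
            have e1 : (160 : ℝ) ^ (9 * V) ≤ 160 ^ N := pow_le_pow_right₀ (by norm_num) hVN
            have e2 : (17 / 16 : ℝ) ^ (9 * M) ≤ (17 / 16) ^ (19 * N) :=
              pow_le_pow_right₀ (by norm_num) hMN
            gcongr
        _ = (160 * (17 / 16) ^ 19) ^ N := by rw [mul_pow, pow_mul]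
        _ < 512 ^ N := by
            apply pow_lt_pow_left₀ _ (by positivity) (by omega)
            norm_num
        _ = (2 ^ N) ^ 9 := by
            rw [← pow_mul, mul_comm N 9, pow_mul]
            norm_num
    exact lt_of_pow_lt_pow_left₀ 9 (by positivity) h2
  exact_mod_cast hreal

end Pool.Agent.Helper848.SD
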