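import Mathlib

set_option autoImplicit false

/-!
# The sphere dimension of a graph
-/

namespace Pool.Agent.Helper848.SD

/-- `ℝ ^ m` with its Euclidean norm -/
abbrev Eu (m : ℕ) : Type := EuclideanSpace ℝ (Fin m)

/-- `S` is the intersection of the closed unit ball of `ℝ ^ (d + 1)` with a hyperplane -/
def IsSlice (d : ℕ) (S : Set (Eu (d + 1))) : Prop :=
  ∃ (u : Eu (d + 1)) (t : ℝ), u ≠ 0 ∧ S = Metric.closedBall 0 1 ∩ {x | inner ℝ u x = t}

/-- the class `𝒮_d`: intersection graphs of families of sets `𝔻 ∩ H`, where `𝔻` is the closed unit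
ball of `ℝ ^ (d + 1)` and `H` is a hyperplane -/
def SphereClass (d : ℕ) {V : Type} (G : SimpleGraph V) : Prop :=
  ∃ S : V → Set (Eu (d + 1)), (∀ v, IsSlice d (S v)) ∧
    ∀ v w, v ≠ w → (G.Adj v w ↔ (S v ∩ S w).Nonempty)

/-- the sphere dimension of a graph: the least `d ≥ 1` with `G ∈ 𝒮_d` -/
noncomputable def sd {V : Type} (G : SimpleGraph V) : ℕ := sInf {d | 1 ≤ d ∧ SphereClass d G}

/-- the maximum of the sphere dimensions of the graphs on `n` vertices -/
noncomputable def f (n : ℕ) : ℕ := sSup {d | ∃ G : SimpleGraph (Fin n), sd G = d}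

end Pool.Agent.Helper848.SD
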