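import Mathlib

set_option autoImplicit false

/-!
# When do two hyperplane slices of the unit ball meet?
-/

namespace Pool.Agent.Helper848.SD

section geo

variable {E : Type*} [NormedAddCommGroup E] [InnerProductSpace ℝ E]

theorem inner_sq_le (u x : E) (hx : ‖x‖ ≤ 1) : (inner ℝ u x) ^ 2 ≤ ‖u‖ ^ 2 := by
  have h1 := abs_real_inner_le_norm u x
  have h2 : |inner ℝ u x| ≤ ‖u‖ := by
    refine h1.trans ?_
    have := mul_le_mul_of_nonneg_left hx (norm_nonneg u)
    linarith
  rw [← sq_abs]
  exact pow_le_pow_left₀ (abs_nonneg _) h2 2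

theorem slice_inter (u u' : E) (t t' : ℝ) (hu : u ≠ 0) (hu' : u' ≠ 0) :
    (∃ x : E, ‖x‖ ≤ 1 ∧ inner ℝ u x = t ∧ inner ℝ u' x = t') ↔
      (t ^ 2 ≤ ‖u‖ ^ 2 ∧ t' ^ 2 ≤ ‖u'‖ ^ 2 ∧
        (inner ℝ u u' - t * t') ^ 2 ≤ (‖u‖ ^ 2 - t ^ 2) * (‖u'‖ ^ 2 - t' ^ 2)) := by
  constructor
  · rintro ⟨x, hx, rfl, rfl⟩
    refine ⟨inner_sq_le u x hx, inner_sq_le u' x hx, ?_⟩
    have hq : ∀ r : ℝ, 0 ≤ (‖u‖ ^ 2 - (inner ℝ u x) ^ 2) * (r * r) +
        (2 * (inner ℝ u u' - inner ℝ u x * inner ℝ u' x)) * r +
        (‖u'‖ ^ 2 - (inner ℝ u' x) ^ 2) := by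
      intro r
      have h1 := inner_sq_le (r • u + u') x hx
      have h2 : inner ℝ (r • u + u') x = r * inner ℝ u x + inner ℝ u' x := by
        rw [inner_add_left, real_inner_smul_left]
      have h3 : ‖r • u + u'‖ ^ 2 = r ^ 2 * ‖u‖ ^ 2 + 2 * (r * inner ℝ u u') + ‖u'‖ ^ 2 := by
        rw [norm_add_sq_real, norm_smul, real_inner_smul_left, mul_pow, Real.norm_eq_abs, sq_abs]
      rw [h2, h3] at h1
      nlinarith
    have h := discrim_le_zero hq
    unfold discrim at h
    nlinarith
  · rintro ⟨h1, h2, h3⟩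
    have ha : 0 < ‖u‖ ^ 2 := by positivity
    have hc : 0 < ‖u'‖ ^ 2 := by positivity
    set a : ℝ := ‖u‖ ^ 2 with hadef
    set c : ℝ := ‖u'‖ ^ 2 with hcdef
    set b : ℝ := inner ℝ u u' with hbdef
    have huu : inner ℝ u u = a := by rw [real_inner_self_eq_norm_sq]
    have hcc : inner ℝ u' u' = c := by rw [real_inner_self_eq_norm_sq]
    have hub : inner ℝ u' u = b := by rw [real_inner_comm]
    have hCS : b ^ 2 ≤ a * c := by
      have := real_inner_mul_inner_self_le u u'
      rw [huu, hcc, ← hbdef] at this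
      nlinarith
    rcases hCS.lt_or_eq with hlt | heq
    · obtain ⟨D, hDd⟩ : ∃ D : ℝ, D = a * c - b ^ 2 := ⟨_, rfl⟩
      have hD : 0 < D := by rw [hDd]; linarith
      have hDne : D ≠ 0 := hD.ne'
      set α : ℝ := (c * t - b * t') / D with hα
      set β : ℝ := (a * t' - b * t) / D with hβ
      refine ⟨α • u + β • u', ?_, ?_, ?_⟩
      · have hn : ‖α • u + β • u'‖ ^ 2 = (c * t ^ 2 - 2 * (b * t * t') + a * t' ^ 2) /
            D := by
          rw [norm_add_sq_real, norm_smul, norm_smul, real_inner_smul_left,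
            real_inner_smul_right, mul_pow, mul_pow, Real.norm_eq_abs, Real.norm_eq_abs, sq_abs,
            sq_abs, ← hadef, ← hcdef, ← hbdef, hα, hβ]
          field_simp
          rw [hDd]
          ring
        have hle : ‖α • u + β • u'‖ ^ 2 ≤ 1 := by
          rw [hn, div_le_one hD, hDd]
          nlinarith
        have := abs_le_of_sq_le_sq' (show ‖α • u + β • u'‖ ^ 2 ≤ 1 ^ 2 by simpa using hle)
          zero_le_one
        exact this.2
      · rw [inner_add_right, real_inner_smul_right, real_inner_smul_right, huu, ← hbdef, hα, hβ]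
        field_simp
        rw [hDd]
        ring
      · rw [inner_add_right, real_inner_smul_right, real_inner_smul_right, hcc, hub, hα, hβ]
        field_simp
        rw [hDd]
        ring
    · have hz : ‖t' • u - t • u'‖ ^ 2 ≤ 0 := by
        have : ‖t' • u - t • u'‖ ^ 2 = a * t' ^ 2 - 2 * (b * t * t') + c * t ^ 2 := by
          rw [norm_sub_sq_real, norm_smul, norm_smul, real_inner_smul_left,
            real_inner_smul_right, mul_pow, mul_pow, Real.norm_eq_abs, Real.norm_eq_abs, sq_abs,
            sq_abs, ← hadef, ← hcdef, ← hbdef]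
          ring
        rw [this]
        nlinarith
      have hz0 : t' • u - t • u' = 0 := by
        have : ‖t' • u - t • u'‖ = 0 := by nlinarith [norm_nonneg (t' • u - t • u')]
        exact norm_eq_zero.1 this
      have hta : t' * a = t * b := by
        have h4 := congrArg (fun z => inner ℝ u z) (sub_eq_zero.1 hz0)
        simp only [real_inner_smul_right] at h4
        rw [huu, ← hbdef] at h4
        exact h4
      refine ⟨(t / a) • u, ?_, ?_, ?_⟩
      · have hn : ‖(t / a) • u‖ ^ 2 = t ^ 2 / a := by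
          rw [norm_smul, mul_pow, Real.norm_eq_abs, sq_abs, ← hadef]
          field_simp
        have hle : ‖(t / a) • u‖ ^ 2 ≤ 1 := by
          rw [hn, div_le_one ha]
          exact h1
        have := abs_le_of_sq_le_sq' (show ‖(t / a) • u‖ ^ 2 ≤ 1 ^ 2 by simpa using hle)
          zero_le_one
        exact this.2
      · rw [real_inner_smul_right, huu]
        field_simp
      · rw [real_inner_smul_right, hub]
        field_simp
        linarith

end geo

end Pool.Agent.Helper848.SD
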