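import Pool.Agent.Helper848.SD.Margin

set_option autoImplicit false

/-!
# Sites shared by two vertices
-/

namespace Pool.Agent.Helper848.SD

open Finset

section sites

variable {V : Type} [Fintype V] [DecidableEq V] {k : ℕ}

open Classical in
/-- the sign of a pair -/
noncomputable def sgn (G : SimpleGraph V) (u v : V) : ℝ := if G.Adj u v then 1 else -1

omit [Fintype V] [DecidableEq V] in
theorem sgn_comm (G : SimpleGraph V) (u v : V) : sgn G u v = sgn G v u := by
  unfold sgn
  rw [G.adj_comm]

omit [Fintype V] [DecidableEq V] in
theorem sgn_mul (G : SimpleGraph V) (u v : V) : sgn G u v * sgn G u v = 1 := by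
  unfold sgn
  split_ifs <;> norm_num

omit [Fintype V] [DecidableEq V] in
theorem sgn_abs (G : SimpleGraph V) (u v : V) : |sgn G u v| = 1 := by
  unfold sgn
  split_ifs <;> norm_num

omit [Fintype V] [DecidableEq V] in
theorem sgn_adj (G : SimpleGraph V) (u v : V) (h : G.Adj u v) : sgn G u v = 1 := by
  unfold sgn
  rw [if_pos h]

omit [Fintype V] [DecidableEq V] in
theorem sgn_nadj (G : SimpleGraph V) (u v : V) (h : ¬ G.Adj u v) : sgn G u v = -1 := by
  unfold sgn
  rw [if_neg h]

/-- the sites: all vertices outside the range of `b` -/
abbrev Sites (b : Fin k → V) : Type := {v : V // v ∉ univ.image b}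

theorem card_sites (b : Fin k → V) (hb : Function.Injective b) :
    Fintype.card (Sites b) = Fintype.card V - k := by
  rw [Fintype.card_subtype]
  have h : (univ.filter fun v => v ∉ univ.image b) = (univ.image b)ᶜ := by
    ext v
    simp
  rw [h, card_compl, card_image_of_injective _ hb, card_univ, Fintype.card_fin]

/-- the site of a vertex -/
noncomputable def st (a b : Fin k → V) (hab : ∀ i, a i ∉ univ.image b) (v : V) : Sites b :=
  if h : v ∉ univ.image b then ⟨v, h⟩ else
    ⟨a (Classical.choose (mem_image.1 (not_not.1 h))), hab _⟩

theorem st_out (a b : Fin k → V) (hab : ∀ i, a i ∉ univ.image b) (v : V)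
    (h : v ∉ univ.image b) : st a b hab v = ⟨v, h⟩ := by
  unfold st
  rw [dif_pos h]

theorem st_b (a b : Fin k → V) (hab : ∀ i, a i ∉ univ.image b) (hb : Function.Injective b)
    (i : Fin k) : st a b hab (b i) = ⟨a i, hab i⟩ := by
  unfold st
  have h : ¬ (b i ∉ univ.image b) := not_not.2 (mem_image_of_mem _ (mem_univ _))
  rw [dif_neg h]
  have h2 := Classical.choose_spec (mem_image.1 (not_not.1 h))
  have h3 : Classical.choose (mem_image.1 (not_not.1 h)) = i := hb h2.2
  simp only [h3]

/-- the independent set case -/
theorem class_indep (G : SimpleGraph V) (n : ℕ) (hn : Fintype.card V = n) (hn1 : 1 ≤ n)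
    (a b : Fin k → V) (ha : Function.Injective a) (hb : Function.Injective b)
    (hab : ∀ i, a i ∉ univ.image b)
    (hind : ∀ u v, u ∈ univ.image a ∪ univ.image b → v ∈ univ.image a ∪ univ.image b →
      ¬ G.Adj u v) (d : ℕ) (hd : n - k = d + 1) : SphereClass d G := by
  classical
  have hcard : Fintype.card (Sites b) = d + 1 := by rw [card_sites b hb, hn, hd]
  have hcardn : Fintype.card (Sites b) ≤ n := by rw [hcard]; omega
  have hn0 : (1 : ℝ) ≤ n := by exact_mod_cast hn1
  set η : ℝ := 1 / (36 * n) with hη
  have hη0 : 0 < η := by positivity
  have hnη : (n : ℝ) * η = 1 / 36 := by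
    rw [hη]; field_simp
  have hη1 : η ≤ 1 / 36 := by nlinarith
  set ε : V → ℝ := fun v => if v ∈ univ.image b then -1 else 1 with hε
  set c : V → Sites b → ℝ := fun v w =>
    if (v ∈ univ.image a ∪ univ.image b ∧ w.1 ∈ univ.image a) ∨ w = st a b hab v then 0
    else (if v ∈ univ.image b then 3 * η else η) * sgn G v w.1 with hc
  have hcabs : ∀ v w, |c v w| ≤ 3 * η := by
    intro v w
    simp only [hc]
    split_ifs
    · rw [abs_zero]; linarith
    · rw [abs_mul, sgn_abs, abs_of_pos (by linarith)]; linarith
    · rw [abs_mul, sgn_abs, abs_of_pos hη0]; linarith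
  have hNabs : ∀ u v, |∑ w, c u w * c v w| ≤ η / 4 := by
    intro u v
    refine (small_sum n hcardn (c u) (c v) (3 * η) (3 * η) (hcabs u) (hcabs v) (by linarith)
      (by linarith)).trans (le_of_eq ?_)
    calc (n : ℝ) * (3 * η * (3 * η)) = 9 * (n * η) * η := by ring
      _ = η / 4 := by rw [hnη]; ring
  have hεabs : ∀ v, ε v * ε v = 1 := by
    intro v
    simp only [hε]
    split_ifs <;> norm_num
  have hεabs' : ∀ v, |ε v| = 1 := by
    intro v
    simp only [hε]
    split_ifs <;> norm_num
  have hst0 : ∀ v, c v (st a b hab v) = 0 := by
    intro v
    show (if _ ∨ st a b hab v = st a b hab v then (0 : ℝ) else _) = 0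
    rw [if_pos (Or.inr rfl)]
  -- the site of a vertex of the independent set belongs to `a`
  have hstA : ∀ v, v ∈ univ.image a ∪ univ.image b → (st a b hab v).1 ∈ univ.image a := by
    intro v hv
    by_cases hvb : v ∈ univ.image b
    · obtain ⟨i, -, rfl⟩ := mem_image.1 hvb
      rw [st_b a b hab hb]
      exact mem_image_of_mem _ (mem_univ _)
    · rw [st_out a b hab v hvb]
      rcases mem_union.1 hv with h | h
      · exact h
      · exact absurd h hvb
  apply class_of_margin' G d hcard
    (fun v w => (if w = st a b hab v then ε v else 0) + c v w) (η / 2) (by linarith) (by linarith)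
  · intro v
    rw [ip, if_pos rfl, hst0 v, hεabs]
    have := abs_le.1 (hNabs v v)
    have h0 : 0 ≤ ∑ w, c v w * c v w := sum_nonneg fun w _ => mul_self_nonneg _
    constructor <;> linarith
  all_goals
    have key : ∀ u v, u ≠ v → v ∉ univ.image a ∪ univ.image b →
        η ≤ sgn G u v * (∑ w, ((if w = st a b hab u then ε u else 0) + c u w) *
          ((if w = st a b hab v then ε v else 0) + c v w)) := by
      intro u v huv hv
      have hvb : v ∉ univ.image b := fun h => hv (mem_union_right _ h)
      have hva : v ∉ univ.image a := fun h => hv (mem_union_left _ h)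
      have hstv : st a b hab v = ⟨v, hvb⟩ := st_out a b hab v hvb
      have hne : st a b hab u ≠ st a b hab v := by
        intro h
        by_cases hu : u ∈ univ.image b
        · have h1 := hstA u (mem_union_right _ hu)
          rw [h, hstv] at h1
          exact hva h1
        · rw [st_out a b hab u hu, hstv] at h
          exact huv (congrArg Subtype.val h)
      rw [ip, if_neg hne]
      have hεv : ε v = 1 := by simp only [hε]; rw [if_neg hvb]
      have hN := abs_le.1 (hNabs u v)
      have hN' : |sgn G u v * ∑ w, c u w * c v w| ≤ η / 4 := by
        rw [abs_mul, sgn_abs, one_mul]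
        exact hNabs u v
      have hN2 := (abs_le.1 hN').1
      have hcu : c u (st a b hab v) = (if u ∈ univ.image b then 3 * η else η) * sgn G u v := by
        simp only [hc]
        rw [if_neg]
        · rw [hstv]
        · rintro (⟨_, h⟩ | h)
          · rw [hstv] at h
            exact hva h
          · exact hne h.symm
      have hcv : c v (st a b hab u) = η * sgn G v (st a b hab u).1 := by
        simp only [hc]
        rw [if_neg, if_neg hvb]
        rintro (⟨h, _⟩ | h)
        · exact hv h
        · exact hne h
      rw [hcu, hcv, hεv]
      by_cases hu : u ∈ univ.image b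
      · rw [if_pos hu]
        have h1 : |sgn G u v * (ε u * (η * sgn G v (st a b hab u).1))| ≤ η := by
          rw [abs_mul, abs_mul, abs_mul, sgn_abs, sgn_abs, hεabs', abs_of_pos hη0]
          linarith
        have h2 := (abs_le.1 h1).1
        have h3 : sgn G u v * (3 * η * sgn G u v) = 3 * η := by
          rw [mul_comm, mul_assoc, sgn_mul, mul_one]
        nlinarith
      · rw [if_neg hu]
        have hεu : ε u = 1 := by simp only [hε]; rw [if_neg hu]
        rw [hεu, st_out a b hab u hu]
        have h3 : sgn G u v * (η * sgn G u v) = η := by
          rw [mul_comm, mul_assoc, sgn_mul, mul_one]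
        have h4 : sgn G u v * (η * sgn G v u) = η := by rw [sgn_comm G v u]; exact h3
        simp only [one_mul]
        nlinarith
    have sym : ∀ u v, (∑ w, ((if w = st a b hab u then ε u else 0) + c u w) *
          ((if w = st a b hab v then ε v else 0) + c v w)) =
          ∑ w, ((if w = st a b hab v then ε v else 0) + c v w) *
          ((if w = st a b hab u then ε u else 0) + c u w) :=
      fun u v => sum_congr rfl fun w _ => mul_comm _ _
  · intro u v hadj
    have huv := G.ne_of_adj hadj
    by_cases hv : v ∈ univ.image a ∪ univ.image b
    · have hu : u ∉ univ.image a ∪ univ.image b := fun hu => hind u v hu hv hadj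
      have := key v u huv.symm hu
      rw [sgn_adj G v u hadj.symm, one_mul] at this
      rw [sym u v]
      linarith
    · have := key u v huv hv
      rw [sgn_adj G u v hadj, one_mul] at this
      linarith
  · intro u v huv hadj
    by_cases hv : v ∈ univ.image a ∪ univ.image b
    · by_cases hu : u ∈ univ.image a ∪ univ.image b
      · rw [ip]
        have hN := (abs_le.1 (hNabs u v)).2
        have h1 : c v (st a b hab u) = 0 := by
          simp only [hc]
          rw [if_pos (Or.inl ⟨hv, hstA u hu⟩)]
        have h2 : c u (st a b hab v) = 0 := by
          simp only [hc]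
          rw [if_pos (Or.inl ⟨hu, hstA v hv⟩)]
        have h3 : (if st a b hab u = st a b hab v then ε u * ε v else 0) ≤ 0 := by
          split_ifs with h
          · -- one of them is in the range of `b`, the other is not
            simp only [hε]
            by_cases hub : u ∈ univ.image b
            · by_cases hvb : v ∈ univ.image b
              · exfalso
                obtain ⟨i, -, rfl⟩ := mem_image.1 hub
                obtain ⟨j, -, rfl⟩ := mem_image.1 hvb
                rw [st_b a b hab hb, st_b a b hab hb] at h
                have := ha (congrArg Subtype.val h)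
                rw [this] at huv
                exact huv rfl
              · rw [if_pos hub, if_neg hvb]; norm_num
            · by_cases hvb : v ∈ univ.image b
              · rw [if_neg hub, if_pos hvb]; norm_num
              · exfalso
                rw [st_out a b hab u hub, st_out a b hab v hvb] at h
                exact huv (congrArg Subtype.val h)
          · exact le_rfl
        rw [h1, h2]
        linarith
      · have h1 := key v u huv.symm hu
        rw [sgn_nadj G v u (fun h => hadj h.symm)] at h1
        rw [sym u v]
        linarith
    · have h1 := key u v huv hv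
      rw [sgn_nadj G u v hadj] at h1
      linarith

end sites

end Pool.Agent.Helper848.SD
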