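import Pool.Agent.Helper848.SD.Count

set_option autoImplicit false

/-!
# Too few sign patterns for all graphs
-/

namespace Pool.Agent.Helper848.SD

open MvPolynomial

/-- the unordered pairs of `Fin n`, the larger element first -/
abbrev Pr (n : ℕ) : Type := Σ j : Fin n, Fin j.val

/-- the smaller element -/
def lo {n : ℕ} (p : Pr n) : Fin n := ⟨p.2.val, p.2.2.trans p.1.2⟩

theorem card_Pr (n : ℕ) : 2 * Fintype.card (Pr n) = n * (n - 1) := by
  rw [Fintype.card_sigma]
  simp only [Fintype.card_fin]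
  rw [Fin.sum_univ_eq_sum_range (fun i => i) n, mul_comm, Finset.sum_range_id_mul_two]

/-- index of a variable -/
def ix {n d : ℕ} (i : Fin n) (k : Fin (d + 3)) : Fin (n * (d + 3)) := finProdFinEquiv (i, k)

/-- radius polynomial -/
noncomputable def rP {n d : ℕ} (i : Fin n) : MvPolynomial (Fin (n * (d + 3))) ℝ :=
  X (ix i ⟨d + 2, by omega⟩)

/-- product polynomial -/
noncomputable def sP {n d : ℕ} (i j : Fin n) : MvPolynomial (Fin (n * (d + 3))) ℝ :=
  ∑ k : Fin (d + 1), X (ix i ⟨k.val, by omega⟩) * X (ix j ⟨k.val, by omega⟩) -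
    X (ix i ⟨d + 1, by omega⟩) * X (ix j ⟨d + 1, by omega⟩)

/-- the test polynomials -/
noncomputable def FP (n d : ℕ) : Fin n ⊕ (Pr n × Bool) → MvPolynomial (Fin (n * (d + 3))) ℝ :=
  fun o => match o with
  | Sum.inl i => rP i
  | Sum.inr (p, false) => rP (lo p) * rP p.1 - sP (lo p) p.1
  | Sum.inr (p, true) => rP (lo p) * rP p.1 + sP (lo p) p.1

theorem deg_mul_X {σ : Type*} (a b : σ) :
    ((X a * X b : MvPolynomial σ ℝ)).totalDegree ≤ 2 := by
  refine (totalDegree_mul _ _).trans ?_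
  rw [totalDegree_X, totalDegree_X]

theorem deg_sP {n d : ℕ} (i j : Fin n) : (sP (d := d) i j).totalDegree ≤ 2 := by
  unfold sP
  refine (totalDegree_sub _ _).trans (max_le ?_ (deg_mul_X _ _))
  exact totalDegree_finsetSum_le fun k _ => deg_mul_X _ _

theorem deg_FP (n d : ℕ) (o : Fin n ⊕ (Pr n × Bool)) : (FP n d o).totalDegree ≤ 2 := by
  rcases o with i | ⟨p, b⟩
  · show (X _ : MvPolynomial (Fin (n * (d + 3))) ℝ).totalDegree ≤ 2
    rw [totalDegree_X]
    norm_num
  · cases b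
    · exact (totalDegree_sub _ _).trans (max_le (deg_mul_X _ _) (deg_sP _ _))
    · exact (totalDegree_add _ _).trans (max_le (deg_mul_X _ _) (deg_sP _ _))

/-- the point belonging to vectors `U`, numbers `T` and numbers `R` -/
noncomputable def zz {n d : ℕ} (U : Fin n → Fin (d + 1) → ℝ) (T R : Fin n → ℝ) :
    Fin (n * (d + 3)) → ℝ := fun q =>
  if h : (finProdFinEquiv.symm q).2.val < d + 1 then
    U (finProdFinEquiv.symm q).1 ⟨(finProdFinEquiv.symm q).2.val, h⟩
  else if (finProdFinEquiv.symm q).2.val = d + 1 then T (finProdFinEquiv.symm q).1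
  else R (finProdFinEquiv.symm q).1

theorem zz_u {n d : ℕ} (U : Fin n → Fin (d + 1) → ℝ) (T R : Fin n → ℝ) (i : Fin n)
    (k : Fin (d + 1)) : zz U T R (ix i ⟨k.val, by omega⟩) = U i k := by
  unfold zz ix
  simp only [Equiv.symm_apply_apply]
  rw [dif_pos k.2]

theorem zz_t {n d : ℕ} (U : Fin n → Fin (d + 1) → ℝ) (T R : Fin n → ℝ) (i : Fin n) :
    zz U T R (ix i ⟨d + 1, by omega⟩) = T i := by
  unfold zz ix
  simp

theorem zz_r {n d : ℕ} (U : Fin n → Fin (d + 1) → ℝ) (T R : Fin n → ℝ) (i : Fin n) :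
    zz U T R (ix i ⟨d + 2, by omega⟩) = R i := by
  unfold zz ix
  simp

theorem eval_rP {n d : ℕ} (U : Fin n → Fin (d + 1) → ℝ) (T R : Fin n → ℝ) (i : Fin n) :
    eval (zz U T R) (rP (d := d) i) = R i := by
  unfold rP
  rw [eval_X, zz_r]

theorem eval_sP {n d : ℕ} (U : Fin n → Fin (d + 1) → ℝ) (T R : Fin n → ℝ) (i j : Fin n) :
    eval (zz U T R) (sP (d := d) i j) = ∑ k, U i k * U j k - T i * T j := by
  unfold sP
  simp only [map_sub, map_sum, map_mul, eval_X, zz_t, zz_u]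

/-- the conditions for a pair -/
def Meet {n d : ℕ} (U : Fin n → Fin (d + 1) → ℝ) (T R : Fin n → ℝ) (i j : Fin n) : Prop :=
  0 ≤ R i ∧ 0 ≤ R j ∧ 0 ≤ R i * R j - (∑ k, U i k * U j k - T i * T j) ∧
    0 ≤ R i * R j + (∑ k, U i k * U j k - T i * T j)

theorem exists_bad (n d : ℕ) (hd : 1 ≤ d) (hn : 18 * (d + 3) + 1 ≤ n) :
    ∃ D : Finset (Pr n), ¬ ∃ (U : Fin n → Fin (d + 1) → ℝ) (T R : Fin n → ℝ),
      ∀ p : Pr n, p ∈ D ↔ Meet U T R (lo p) p.1 := by
  classical
  by_contra hcon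
  push Not at hcon
  choose U T R hUTR using hcon
  have hlt := numerics n d (Fintype.card (Pr n)) hd hn (card_Pr n)
  have hcount := count_patterns (n * (d + 3)) (Fin n ⊕ (Pr n × Bool)) (FP n d) (deg_FP n d)
    (Finset (Pr n)) (fun D => zz (U D) (T D) (R D)) (by
      intro D D' h
      ext p
      rw [hUTR D p, hUTR D' p]
      have h1 := h (Sum.inl (lo p))
      have h2 := h (Sum.inl p.1)
      have h3 := h (Sum.inr (p, false))
      have h4 := h (Sum.inr (p, true))
      simp only [FP, map_sub, map_add, map_mul, eval_rP, eval_sP] at h1 h2 h3 h4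
      unfold Meet
      rw [h1, h2, h3, h4])
  have hκ : Fintype.card (Fin n ⊕ (Pr n × Bool)) = n * n := by
    rw [Fintype.card_sum, Fintype.card_prod, Fintype.card_bool, Fintype.card_fin, mul_comm,
      card_Pr]
    have : 1 ≤ n := by omega
    obtain ⟨m, rfl⟩ : ∃ m, n = m + 1 := ⟨n - 1, by omega⟩
    rw [Nat.add_sub_cancel]
    ring
  rw [hκ, Fintype.card_finset] at hcount
  exact absurd (lt_of_lt_of_le hlt (le_refl _)) (not_lt.2 hcount)

end Pool.Agent.Helper848.SD
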