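import Pool.Agent.Helper848.SD.Defs
import Pool.Agent.Helper91.Eig
import Pool.Agent.Helper848.SD.Geo
import Pool.Agent.Helper848.SD.Poly

set_option autoImplicit false

/-!
# The lower bound on the sphere dimension
-/

namespace Pool.Agent.Helper848.SD

theorem pad_sum (a b : ℕ) (hab : a ≤ b) (x y : Fin a → ℝ) :
    ∑ k : Fin b, (if h : k.val < a then x ⟨k.val, h⟩ else 0) *
      (if h : k.val < a then y ⟨k.val, h⟩ else 0) = ∑ k : Fin a, x k * y k := by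
  obtain ⟨c, rfl⟩ := Nat.exists_eq_add_of_le hab
  rw [Fin.sum_univ_add]
  have h1 : ∀ k : Fin c, (if h : (Fin.natAdd a k).val < a then x ⟨(Fin.natAdd a k).val, h⟩ else 0) *
      (if h : (Fin.natAdd a k).val < a then y ⟨(Fin.natAdd a k).val, h⟩ else 0) = 0 := by
    intro k
    rw [dif_neg (by simp)]
    ring
  rw [Finset.sum_eq_zero (fun k _ => h1 k), add_zero]
  apply Finset.sum_congr rfl
  intro k _
  have h2 : (Fin.castAdd c k).val < a := by simp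
  rw [dif_pos h2, dif_pos h2]
  rfl

/-- parameters of a representation -/
theorem params {V : Type} (G : SimpleGraph V) (d' d : ℕ) (hd : d' ≤ d) (h : SphereClass d' G) :
    ∃ (U : V → Fin (d + 1) → ℝ) (T R : V → ℝ), ∀ v w, v ≠ w → (G.Adj v w ↔
      (0 ≤ R v ∧ 0 ≤ R w ∧ 0 ≤ R v * R w - (∑ k, U v k * U w k - T v * T w) ∧
        0 ≤ R v * R w + (∑ k, U v k * U w k - T v * T w))) := by
  classical
  obtain ⟨S, hS, hadj⟩ := h
  choose u t hu hSu using hS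
  refine ⟨fun v k => if h : k.val < d' + 1 then (u v).ofLp ⟨k.val, h⟩ else 0, t,
    fun v => if t v ^ 2 ≤ ‖u v‖ ^ 2 then Real.sqrt (‖u v‖ ^ 2 - t v ^ 2) else -1, ?_⟩
  intro v w hvw
  rw [hadj v w hvw, hSu v, hSu w, pad_sum (d' + 1) (d + 1) (by omega),
    ← Pool.Agent.Helper91.Eig.inner_sum]
  have hs := slice_inter (u v) (u w) (t v) (t w) (hu v) (hu w)
  have e : ((Metric.closedBall (0 : Eu (d' + 1)) 1 ∩ {x | inner ℝ (u v) x = t v}) ∩
      (Metric.closedBall 0 1 ∩ {x | inner ℝ (u w) x = t w})).Nonempty ↔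
      ∃ x : Eu (d' + 1), ‖x‖ ≤ 1 ∧ inner ℝ (u v) x = t v ∧ inner ℝ (u w) x = t w := by
    constructor
    · rintro ⟨x, ⟨hx1, hx2⟩, ⟨_, hx3⟩⟩
      exact ⟨x, mem_closedBall_zero_iff.1 hx1, hx2, hx3⟩
    · rintro ⟨x, hx1, hx2, hx3⟩
      exact ⟨x, ⟨mem_closedBall_zero_iff.2 hx1, hx2⟩, ⟨mem_closedBall_zero_iff.2 hx1, hx3⟩⟩
  rw [e, hs]
  set s : ℝ := inner ℝ (u v) (u w) - t v * t w with hsdef
  by_cases hv : t v ^ 2 ≤ ‖u v‖ ^ 2
  · by_cases hw : t w ^ 2 ≤ ‖u w‖ ^ 2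
    · simp only [hv, hw, if_true, true_and]
      have hA : 0 ≤ ‖u v‖ ^ 2 - t v ^ 2 := by linarith
      have hB : 0 ≤ ‖u w‖ ^ 2 - t w ^ 2 := by linarith
      have h0 : 0 ≤ Real.sqrt (‖u v‖ ^ 2 - t v ^ 2) * Real.sqrt (‖u w‖ ^ 2 - t w ^ 2) := by
        positivity
      have hsq : (Real.sqrt (‖u v‖ ^ 2 - t v ^ 2) * Real.sqrt (‖u w‖ ^ 2 - t w ^ 2)) ^ 2 =
          (‖u v‖ ^ 2 - t v ^ 2) * (‖u w‖ ^ 2 - t w ^ 2) := by
        rw [mul_pow, Real.sq_sqrt hA, Real.sq_sqrt hB]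
      rw [← hsq]
      constructor
      · intro h
        have h2 := abs_le_of_sq_le_sq' h h0
        exact ⟨Real.sqrt_nonneg _, Real.sqrt_nonneg _, by linarith [h2.2], by linarith [h2.1]⟩
      · rintro ⟨_, _, h3, h4⟩
        exact sq_le_sq' (by linarith) (by linarith)
    · simp only [if_neg hw]
      constructor
      · rintro ⟨_, h, _⟩
        exact absurd h hw
      · rintro ⟨_, h, _⟩
        norm_num at h
  · simp only [if_neg hv]
    constructor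
    · rintro ⟨h, _⟩
      exact absurd h hv
    · rintro ⟨h, _⟩
      norm_num at h

/-- the graph with a given set of edges -/
def gr {n : ℕ} (D : Finset (Pr n)) : SimpleGraph (Fin n) where
  Adj i j := (∃ h : i.val < j.val, (⟨j, ⟨i.val, h⟩⟩ : Pr n) ∈ D) ∨
    ∃ h : j.val < i.val, (⟨i, ⟨j.val, h⟩⟩ : Pr n) ∈ D
  symm := by
    refine ⟨fun i j h => ?_⟩
    exact h.symm
  loopless := by
    refine ⟨fun i h => ?_⟩
    rcases h with ⟨h, _⟩ | ⟨h, _⟩ <;> exact absurd h (lt_irrefl _)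

theorem gr_adj {n : ℕ} (D : Finset (Pr n)) (p : Pr n) : (gr D).Adj (lo p) p.1 ↔ p ∈ D := by
  have hp : (lo p).val < p.1.val := p.2.2
  constructor
  · rintro (⟨h, hD⟩ | ⟨h, hD⟩)
    · exact hD
    · exact absurd (h.trans hp) (lt_irrefl _)
  · intro h
    exact Or.inl ⟨hp, h⟩

/-- the lower bound: for `n ≥ 18 (d + 3) + 1` some graph on `n` vertices lies in none of the classes
`𝒮_1, …, 𝒮_d` -/
theorem exists_not_class (n d : ℕ) (hd : 1 ≤ d) (hn : 18 * (d + 3) + 1 ≤ n) :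
    ∃ G : SimpleGraph (Fin n), ∀ d', d' ≤ d → ¬ SphereClass d' G := by
  obtain ⟨D, hD⟩ := exists_bad n d hd hn
  refine ⟨gr D, fun d' hd' hcl => hD ?_⟩
  obtain ⟨U, T, R, h⟩ := params (gr D) d' d hd' hcl
  refine ⟨U, T, R, fun p => ?_⟩
  rw [← gr_adj D p]
  exact h (lo p) p.1 (Fin.ne_of_lt p.2.2)

end Pool.Agent.Helper848.SD
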