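import Pool.Agent.Helper848.SD.Up

set_option autoImplicit false

/-!
# Vectors on a sphere with a threshold for the inner product
-/

namespace Pool.Agent.Helper848.SD

open Finset

theorem class_of_margin {V : Type} (G : SimpleGraph V) (d : ℕ) (x : V → Fin (d + 1) → ℝ) (θ : ℝ)
    (hθ0 : 0 < θ) (hθ1 : θ < 1)
    (hN : ∀ v, 1 ≤ ∑ a, x v a * x v a ∧ ∑ a, x v a * x v a ≤ 2)
    (h1 : ∀ u v, G.Adj u v → 2 * θ ≤ ∑ a, x u a * x v a)
    (h2 : ∀ u v, u ≠ v → ¬ G.Adj u v → ∑ a, x u a * x v a < θ) : SphereClass d G := by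
  have h1θ : 0 < 1 - θ := by linarith
  set r : V → ℝ := fun v => Real.sqrt (∑ a, x v a * x v a) with hr
  have hrsq : ∀ v, r v * r v = ∑ a, x v a * x v a :=
    fun v => Real.mul_self_sqrt (by linarith [(hN v).1])
  have hr1 : ∀ v, 1 ≤ r v := by
    intro v
    by_contra h
    push Not at h
    have h0 : 0 ≤ r v := Real.sqrt_nonneg _
    have := hrsq v
    have := (hN v).1
    nlinarith
  have hr0 : ∀ v, 0 < r v := fun v => by linarith [hr1 v]
  set l : ℝ := Real.sqrt (2 / (1 - θ)) with hl
  have hll : l * l = 2 / (1 - θ) := Real.mul_self_sqrt (by positivity)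
  set t : ℝ := Real.sqrt ((1 + θ) / (1 - θ)) with ht
  have htt : t * t = (1 + θ) / (1 - θ) := Real.mul_self_sqrt (by positivity)
  have hsum : ∀ u v, ∑ a, (l * x u a / r u) * (l * x v a / r v) =
      (2 / (1 - θ)) * ((∑ a, x u a * x v a) / (r u * r v)) := by
    intro u v
    rw [← hll, Finset.sum_div, Finset.mul_sum]
    apply Finset.sum_congr rfl
    intro a _
    have := (hr0 u).ne'
    have := (hr0 v).ne'
    field_simp
  apply class_of_lorentz G d (fun v a => l * x v a / r v) (fun _ => t)
  · intro u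
    rw [hsum u u, htt, ← hrsq u, div_self (by have := hr0 u; positivity)]
    field_simp
    ring
  · intro u v huv
    rw [hsum u v, htt]
    have hRpos : 0 < r u * r v := mul_pos (hr0 u) (hr0 v)
    have hR1 : 1 ≤ r u * r v := by nlinarith [hr1 u, hr1 v]
    have hR2 : r u * r v ≤ 2 := by
      have e1 := hrsq u
      have e2 := hrsq v
      have e3 := (hN u).2
      have e4 := (hN v).2
      nlinarith [sq_nonneg (r u - r v)]
    have hCS : ∑ a, x u a * x v a ≤ r u * r v := by
      have h := Finset.sum_mul_sq_le_sq_mul_sq Finset.univ (x u) (x v)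
      have e1 : ∑ a, x u a ^ 2 = r u * r u := by
        rw [hrsq]
        exact Finset.sum_congr rfl fun a _ => sq (x u a)
      have e2 : ∑ a, x v a ^ 2 = r v * r v := by
        rw [hrsq]
        exact Finset.sum_congr rfl fun a _ => sq (x v a)
      rw [e1, e2] at h
      have h' : (∑ a, x u a * x v a) ^ 2 ≤ (r u * r v) ^ 2 := by
        refine h.trans (le_of_eq ?_)
        ring
      exact (abs_le_of_sq_le_sq' h' hRpos.le).2
    set y : ℝ := (∑ a, x u a * x v a) / (r u * r v) with hy
    have hy1 : y ≤ 1 := by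
      rw [hy, div_le_one hRpos]
      exact hCS
    have key : |2 / (1 - θ) * y - (1 + θ) / (1 - θ)| ≤ 1 ↔ θ ≤ y := by
      have e : 2 / (1 - θ) * y - (1 + θ) / (1 - θ) = (2 * y - (1 + θ)) / (1 - θ) := by
        field_simp
      rw [e, abs_le, le_div_iff₀ h1θ, div_le_iff₀ h1θ]
      constructor
      · rintro ⟨h, _⟩
        linarith
      · intro h
        exact ⟨by linarith, by linarith⟩
    rw [key]
    constructor
    · intro hadj
      have := h1 u v hadj
      rw [hy, le_div_iff₀ hRpos]
      nlinarith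
    · intro h
      by_contra hadj
      have h3 := h2 u v huv hadj
      rw [hy, le_div_iff₀ hRpos] at h
      nlinarith

theorem class_of_margin' {V T : Type} [Fintype T] (G : SimpleGraph V) (d : ℕ)
    (hT : Fintype.card T = d + 1) (x : V → T → ℝ) (θ : ℝ)
    (hθ0 : 0 < θ) (hθ1 : θ < 1)
    (hN : ∀ v, 1 ≤ ∑ a, x v a * x v a ∧ ∑ a, x v a * x v a ≤ 2)
    (h1 : ∀ u v, G.Adj u v → 2 * θ ≤ ∑ a, x u a * x v a)
    (h2 : ∀ u v, u ≠ v → ¬ G.Adj u v → ∑ a, x u a * x v a < θ) : SphereClass d G := by
  have e : Fin (d + 1) ≃ T := (Fintype.equivFinOfCardEq hT).symm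
  have hs : ∀ u v, ∑ a, x u (e a) * x v (e a) = ∑ a, x u a * x v a :=
    fun u v => Equiv.sum_comp e (fun a => x u a * x v a)
  apply class_of_margin G d (fun v a => x v (e a)) θ hθ0 hθ1
  · intro v
    rw [hs]
    exact hN v
  · intro u v h
    rw [hs]
    exact h1 u v h
  · intro u v h h'
    rw [hs]
    exact h2 u v h h'

theorem ip {V T : Type} [Fintype T] [DecidableEq T] (st : V → T) (ε : V → ℝ) (c : V → T → ℝ)
    (u v : V) :
    ∑ w, ((if w = st u then ε u else 0) + c u w) * ((if w = st v then ε v else 0) + c v w) =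
      (if st u = st v then ε u * ε v else 0) + ε u * c v (st u) + ε v * c u (st v) +
        ∑ w, c u w * c v w := by
  have h : ∀ w, ((if w = st u then ε u else 0) + c u w) * ((if w = st v then ε v else 0) + c v w) =
      (if w = st u then ε u * (if w = st v then ε v else 0) else 0) +
      (if w = st u then ε u * c v w else 0) + (if w = st v then ε v * c u w else 0) +
      c u w * c v w := by
    intro w
    split_ifs <;> ring
  simp only [h, Finset.sum_add_distrib, Finset.sum_ite_eq', Finset.mem_univ, if_true]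
  congr 3
  split_ifs <;> ring

/-- the sum of products of small numbers is small -/
theorem small_sum {T : Type} [Fintype T] (n : ℕ) (hT : Fintype.card T ≤ n) (f g : T → ℝ)
    (A B : ℝ) (hA : ∀ w, |f w| ≤ A) (hB : ∀ w, |g w| ≤ B) (hA0 : 0 ≤ A) (hB0 : 0 ≤ B) :
    |∑ w, f w * g w| ≤ n * (A * B) := by
  refine (Finset.abs_sum_le_sum_abs _ _).trans ?_
  calc ∑ w, |f w * g w| ≤ ∑ _w : T, A * B := by
        apply Finset.sum_le_sum
        intro w _
        rw [abs_mul]
        exact mul_le_mul (hA w) (hB w) (abs_nonneg _) hA0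
    _ = Fintype.card T * (A * B) := by
        rw [Finset.sum_const, Finset.card_univ, nsmul_eq_mul]
    _ ≤ n * (A * B) := by
        have : (Fintype.card T : ℝ) ≤ n := by exact_mod_cast hT
        have h0 : 0 ≤ A * B := mul_nonneg hA0 hB0
        exact mul_le_mul_of_nonneg_right this h0

end Pool.Agent.Helper848.SD
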