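import Mathlib
import Pool.Agent.Helper848.SD.Comb

set_option autoImplicit false

/-!
# The maximum sphere dimension is at most `n - c n ^ (1 / 4)`

A graph lies in `𝒮_d` if its vertices can be represented by vectors of equal norm in `ℝ ^ (d + 1)`
so that adjacency is decided by comparing inner products with a nonnegative threshold. All but `k`
vertices get their own coordinate axis, and each of the `k` other vertices shares the axis of another
vertex, with the same or the opposite sign. If there are `k` vertices such that every two of them lie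
in many triples with an odd number of edges, small perturbations realize the graph. Otherwise there
is an independent set of size `2 k`, and it is put on `k` axes in opposite pairs.
-/

namespace Pool.Agent.Helper848.SD.PowerSaving

open Pool.Agent.Helper848.SD

/-- If `k ≥ 1` and `n ≥ 9 k ^ 4`, then every graph on `n` vertices lies in `𝒮_(n - k - 1)`, and the
maximum sphere dimension satisfies `f n ≤ n - k - 1`. -/
theorem result : ∀ n k : ℕ, 1 ≤ k → 9 * k ^ 4 ≤ n →
    (∀ G : SimpleGraph (Fin n), SphereClass (n - k - 1) G) ∧ f n ≤ n - k - 1 := by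
  intro n k hk hn
  have hkn : 9 * k ≤ n := by
    have h1 : k ≤ k ^ 4 := Nat.le_self_pow (by norm_num) k
    omega
  have hcl : ∀ G : SimpleGraph (Fin n), SphereClass (n - k - 1) G := by
    intro G
    apply class_saving G k (n - k - 1) hk
    · rw [Fintype.card_fin]
      refine le_trans ?_ hn
      have hc := card_Pr k
      obtain ⟨m, rfl⟩ : ∃ m, k = m + 1 := ⟨k - 1, by omega⟩
      rw [Nat.add_sub_cancel] at hc
      generalize Fintype.card (Pr (m + 1)) = c at hc
      have h1 : (m + 1) * (4 * (m + 1) * (2 * (m + 1) + c) + 1) =
          8 * (m + 1) ^ 3 + 2 * (m + 1) ^ 2 * (2 * c) + (m + 1) := by ring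
      rw [h1, hc]
      nlinarith [sq_nonneg m, Nat.zero_le (m ^ 3), Nat.zero_le (m ^ 4), Nat.zero_le (m ^ 2)]
    · rw [Fintype.card_fin]
      omega
  refine ⟨hcl, ?_⟩
  have hne : {d | ∃ G : SimpleGraph (Fin n), sd G = d}.Nonempty := ⟨_, ⊥, rfl⟩
  apply csSup_le hne
  rintro d ⟨G, rfl⟩
  exact Nat.sInf_le (show (n - k - 1) ∈ {d | 1 ≤ d ∧ SphereClass d G} from ⟨by omega, hcl G⟩)

end Pool.Agent.Helper848.SD.PowerSaving
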