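import Pool.Agent.Helper848.SD.Ind
import Pool.Agent.Helper848.SD.Poly

set_option autoImplicit false

/-!
# Sites shared by two vertices: the case of many odd triples
-/

namespace Pool.Agent.Helper848.SD

open Finset

variable {V : Type} [Fintype V] [DecidableEq V] {k : ℕ}

theorem exists_pr {k : ℕ} (i j : Fin k) (hij : i ≠ j) :
    ∃ p : Pr k, (lo p = i ∧ p.1 = j) ∨ (lo p = j ∧ p.1 = i) := by
  rcases lt_or_gt_of_ne hij with h | h
  · exact ⟨⟨j, ⟨i.val, h⟩⟩, Or.inl ⟨rfl, rfl⟩⟩
  · exact ⟨⟨i, ⟨j.val, h⟩⟩, Or.inr ⟨rfl, rfl⟩⟩

/-- the rich case -/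
theorem class_rich (G : SimpleGraph V) (n : ℕ) (hn : Fintype.card V = n) (hn1 : 1 ≤ n)
    (a b : Fin k → V) (ha : Function.Injective a) (hb : Function.Injective b)
    (hab : ∀ i, a i ∉ univ.image b)
    (g : Pr k → V) (hg : Function.Injective g) (hgb : ∀ p, g p ∉ univ.image b)
    (hga : ∀ p, g p ∉ univ.image a)
    (hodd : ∀ p : Pr k, sgn G (b (lo p)) (g p) * sgn G (b p.1) (g p) =
      sgn G (b (lo p)) (b p.1)) (d : ℕ) (hd : n - k = d + 1) : SphereClass d G := by
  classical
  have hcard : Fintype.card (Sites b) = d + 1 := by rw [card_sites b hb, hn, hd]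
  have hcardn : Fintype.card (Sites b) ≤ n := by rw [hcard]; omega
  have hn0 : (1 : ℝ) ≤ n := by exact_mod_cast hn1
  set δ : ℝ := 1 / (3 * n) with hδ
  have hδ0 : 0 < δ := by positivity
  have hnδ : (n : ℝ) * δ = 1 / 3 := by
    rw [hδ]; field_simp
  have hδ1 : δ ≤ 1 / 3 := by nlinarith
  set η : ℝ := δ ^ 2 / 8 with hη
  have hη0 : 0 < η := by positivity
  have hη3 : 3 * η ≤ δ := by rw [hη]; nlinarith
  have hη1 : η ≤ 1 / 9 := by linarith
  set sp : V → Sites b → Prop := fun v w =>
    ∃ p : Pr k, (v = b (lo p) ∨ v = b p.1) ∧ w.1 = g p with hsp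
  set ε : V → ℝ := fun v => if v ∈ univ.image b then sgn G v (st a b hab v).1 else 1 with hε
  set c : V → Sites b → ℝ := fun v w => if w = st a b hab v then 0 else
    (if v ∈ univ.image b then (if sp v w then δ else 3 * η) else η) * sgn G v w.1 with hc
  have hcabs : ∀ v w, |c v w| ≤ δ := by
    intro v w
    simp only [hc]
    split_ifs
    · rw [abs_zero]; linarith
    · rw [abs_mul, sgn_abs, abs_of_pos hδ0]; linarith
    · rw [abs_mul, sgn_abs, abs_of_pos (by linarith)]; linarith
    · rw [abs_mul, sgn_abs, abs_of_pos hη0]; linarith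
  have hcout : ∀ v, v ∉ univ.image b → ∀ w, |c v w| ≤ η := by
    intro v hv w
    simp only [hc]
    rw [if_neg hv]
    split_ifs
    · rw [abs_zero]; linarith
    · rw [abs_mul, sgn_abs, abs_of_pos hη0]; linarith
  have hcsp : ∀ v, v ∈ univ.image b → ∀ w, ¬ sp v w → |c v w| ≤ 3 * η := by
    intro v hv w hw
    simp only [hc]
    rw [if_pos hv, if_neg hw]
    split_ifs
    · rw [abs_zero]; linarith
    · rw [abs_mul, sgn_abs, abs_of_pos (by linarith)]; linarith
  have hεabs' : ∀ v, |ε v| = 1 := by
    intro v
    simp only [hε]
    split_ifs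
    · exact sgn_abs _ _ _
    · norm_num
  have hεabs : ∀ v, ε v * ε v = 1 := by
    intro v
    rw [← abs_mul_abs_self, hεabs']
    norm_num
  have hst0 : ∀ v, c v (st a b hab v) = 0 := by
    intro v
    show (if st a b hab v = st a b hab v then (0 : ℝ) else _) = 0
    rw [if_pos rfl]
  -- one of the two vertices is not in the range of `b`
  have key : ∀ u v, u ≠ v → v ∉ univ.image b →
      η ≤ sgn G u v * (∑ w, ((if w = st a b hab u then ε u else 0) + c u w) *
        ((if w = st a b hab v then ε v else 0) + c v w)) := by
    intro u v huv hvb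
    have hstv : st a b hab v = ⟨v, hvb⟩ := st_out a b hab v hvb
    rw [ip]
    have hεv : ε v = 1 := by simp only [hε]; rw [if_neg hvb]
    have hN' : |sgn G u v * ∑ w, c u w * c v w| ≤ η / 3 := by
      rw [abs_mul, sgn_abs, one_mul]
      refine (small_sum n hcardn (c u) (c v) δ η (hcabs u) (hcout v hvb) hδ0.le hη0.le).trans
        (le_of_eq ?_)
      calc (n : ℝ) * (δ * η) = (n * δ) * η := by ring
        _ = η / 3 := by rw [hnδ]; ring
    have hN2 := (abs_le.1 hN').1
    by_cases hst : st a b hab u = st a b hab v
    · have hub : u ∈ univ.image b := by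
        by_contra hu
        rw [st_out a b hab u hu, hstv] at hst
        exact huv (congrArg Subtype.val hst)
      have hεu : ε u = sgn G u v := by
        simp only [hε]
        rw [if_pos hub, hst, hstv]
      have h1 : c v (st a b hab u) = 0 := by rw [hst]; exact hst0 v
      have h2 : c u (st a b hab v) = 0 := by rw [← hst]; exact hst0 u
      rw [if_pos hst, h1, h2, hεu, hεv]
      have h3 := sgn_mul G u v
      nlinarith
    · rw [if_neg hst, hεv]
      have hcu : c u (st a b hab v) = (if u ∈ univ.image b then
          (if sp u (st a b hab v) then δ else 3 * η) else η) * sgn G u v := by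
        simp only [hc]
        rw [if_neg (fun h => hst h.symm), hstv]
      rw [hcu]
      by_cases hu : u ∈ univ.image b
      · rw [if_pos hu]
        have h1 : |sgn G u v * (ε u * c v (st a b hab u))| ≤ η := by
          rw [abs_mul, abs_mul, sgn_abs, hεabs']
          linarith [hcout v hvb (st a b hab u)]
        have h2 := (abs_le.1 h1).1
        set q : ℝ := if sp u (st a b hab v) then δ else 3 * η with hq
        have hq3 : 3 * η ≤ q := by
          rw [hq]
          split_ifs
          · exact hη3
          · exact le_rfl
        have h3 : sgn G u v * (q * sgn G u v) = q := by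
          rw [mul_comm, mul_assoc, sgn_mul, mul_one]
        nlinarith
      · rw [if_neg hu]
        have hεu : ε u = 1 := by simp only [hε]; rw [if_neg hu]
        have hcv : c v (st a b hab u) = η * sgn G v (st a b hab u).1 := by
          simp only [hc]
          rw [if_neg hst, if_neg hvb]
        rw [hεu, hcv, st_out a b hab u hu]
        have h3 : sgn G u v * (η * sgn G u v) = η := by
          rw [mul_comm, mul_assoc, sgn_mul, mul_one]
        have h4 : sgn G u v * (η * sgn G v u) = η := by rw [sgn_comm G v u]; exact h3
        simp only [one_mul]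
        nlinarith
  have sym : ∀ u v, (∑ w, ((if w = st a b hab u then ε u else 0) + c u w) *
        ((if w = st a b hab v then ε v else 0) + c v w)) =
        ∑ w, ((if w = st a b hab v then ε v else 0) + c v w) *
        ((if w = st a b hab u then ε u else 0) + c u w) :=
    fun u v => sum_congr rfl fun w _ => mul_comm _ _
  -- both vertices are in the range of `b`
  have key2 : ∀ i j : Fin k, i ≠ j →
      η ≤ sgn G (b i) (b j) * (∑ w, ((if w = st a b hab (b i) then ε (b i) else 0) + c (b i) w) *
        ((if w = st a b hab (b j) then ε (b j) else 0) + c (b j) w)) := by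
    intro i j hij
    have hui : b i ∈ univ.image b := mem_image_of_mem _ (mem_univ _)
    have huj : b j ∈ univ.image b := mem_image_of_mem _ (mem_univ _)
    obtain ⟨p, hp⟩ := exists_pr i j hij
    have hspi : ∀ w, sp (b i) w ↔ ∃ q : Pr k, (i = lo q ∨ i = q.1) ∧ w.1 = g q := by
      intro w
      simp only [hsp, hb.eq_iff]
    have hspj : ∀ w, sp (b j) w ↔ ∃ q : Pr k, (j = lo q ∨ j = q.1) ∧ w.1 = g q := by
      intro w
      simp only [hsp, hb.eq_iff]
    have hne : st a b hab (b i) ≠ st a b hab (b j) := by
      rw [st_b a b hab hb, st_b a b hab hb]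
      intro h
      exact hij (ha (congrArg Subtype.val h))
    rw [ip, if_neg hne]
    set w0 : Sites b := ⟨g p, hgb p⟩ with hw0
    have hnsp : ∀ (l m : Fin k), ¬ sp (b l) (st a b hab (b m)) := by
      rintro l m ⟨q, -, h⟩
      rw [st_b a b hab hb] at h
      exact hga q (mem_image.2 ⟨m, mem_univ _, h⟩)
    have hw0st : ∀ m : Fin k, w0 ≠ st a b hab (b m) := by
      intro m h
      rw [st_b a b hab hb] at h
      exact hga p (mem_image.2 ⟨m, mem_univ _, (congrArg Subtype.val h).symm⟩)
    have hsp0i : sp (b i) w0 := by
      rw [hspi]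
      refine ⟨p, ?_, rfl⟩
      rcases hp with ⟨h1, h2⟩ | ⟨h1, h2⟩
      · exact Or.inl h1.symm
      · exact Or.inr h2.symm
    have hsp0j : sp (b j) w0 := by
      rw [hspj]
      refine ⟨p, ?_, rfl⟩
      rcases hp with ⟨h1, h2⟩ | ⟨h1, h2⟩
      · exact Or.inr h2.symm
      · exact Or.inl h1.symm
    have hci : c (b i) w0 = δ * sgn G (b i) (g p) := by
      simp only [hc]
      rw [if_neg (hw0st i), if_pos hui, if_pos hsp0i]
    have hcj : c (b j) w0 = δ * sgn G (b j) (g p) := by
      simp only [hc]
      rw [if_neg (hw0st j), if_pos huj, if_pos hsp0j]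
    have hoddij : sgn G (b i) (g p) * sgn G (b j) (g p) = sgn G (b i) (b j) := by
      have := hodd p
      rcases hp with ⟨h1, h2⟩ | ⟨h1, h2⟩
      · rw [h1, h2] at this
        exact this
      · rw [h1, h2] at this
        rw [sgn_comm G (b i) (b j), ← this]
        ring
    have hsum : ∑ w, c (b i) w * c (b j) w = δ ^ 2 * sgn G (b i) (b j) +
        ∑ w ∈ univ.erase w0, c (b i) w * c (b j) w := by
      rw [← add_sum_erase univ _ (mem_univ w0), hci, hcj, ← hoddij]
      ring
    have hrest : |∑ w ∈ univ.erase w0, c (b i) w * c (b j) w| ≤ η := by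
      refine (abs_sum_le_sum_abs _ _).trans ?_
      calc ∑ w ∈ univ.erase w0, |c (b i) w * c (b j) w|
          ≤ ∑ _w ∈ univ.erase w0, 3 * η * δ := by
            apply sum_le_sum
            intro w hw
            have hww : w ≠ w0 := (mem_erase.1 hw).1
            rw [abs_mul]
            by_cases h1 : sp (b i) w
            · have h2 : ¬ sp (b j) w := by
                intro h2
                rw [hspi] at h1
                rw [hspj] at h2
                obtain ⟨q, hq, hwq⟩ := h1
                obtain ⟨q', hq', hwq'⟩ := h2
                have hqq : q = q' := hg (hwq.symm.trans hwq')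
                subst hqq
                have hqp : q = p := by
                  have hlt : (lo q).val < q.1.val := q.2.2
                  have hltp : (lo p).val < p.1.val := p.2.2
                  have hpair : (lo q = i ∧ q.1 = j) ∨ (lo q = j ∧ q.1 = i) := by
                    rcases hq with h | h <;> rcases hq' with h' | h'
                    · exact absurd (h.trans h'.symm) hij
                    · exact Or.inl ⟨h.symm, h'.symm⟩
                    · exact Or.inr ⟨h'.symm, h.symm⟩
                    · exact absurd (h.trans h'.symm) hij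
                  have hlo : lo q = lo p ∧ q.1 = p.1 := by
                    rcases hpair with ⟨e1, e2⟩ | ⟨e1, e2⟩ <;> rcases hp with ⟨e3, e4⟩ | ⟨e3, e4⟩
                    · exact ⟨e1.trans e3.symm, e2.trans e4.symm⟩
                    · exfalso
                      rw [e1, e2] at hlt
                      rw [e3, e4] at hltp
                      omega
                    · exfalso
                      rw [e1, e2] at hlt
                      rw [e3, e4] at hltp
                      omega
                    · exact ⟨e1.trans e3.symm, e2.trans e4.symm⟩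
                  obtain ⟨q1, q2⟩ := q
                  obtain ⟨p1, p2⟩ := p
                  obtain ⟨e1, e2⟩ := hlo
                  simp only at e2
                  subst e2
                  congr 1
                  apply Fin.ext
                  have e3 := congrArg Fin.val e1
                  exact e3
                apply hww
                apply Subtype.ext
                rw [hwq, hqp]
              calc |c (b i) w| * |c (b j) w| ≤ δ * (3 * η) :=
                    mul_le_mul (hcabs _ _) (hcsp _ huj w h2) (abs_nonneg _) hδ0.le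
                _ = 3 * η * δ := by ring
            · exact mul_le_mul (hcsp _ hui w h1) (hcabs _ _) (abs_nonneg _) (by linarith)
        _ = (univ.erase w0).card * (3 * η * δ) := by rw [sum_const, nsmul_eq_mul]
        _ ≤ n * (3 * η * δ) := by
            have h1 : (univ.erase w0).card ≤ n := (card_le_univ _).trans hcardn
            have h2 : ((univ.erase w0).card : ℝ) ≤ n := by exact_mod_cast h1
            exact mul_le_mul_of_nonneg_right h2 (by positivity)
        _ = η := by
            calc (n : ℝ) * (3 * η * δ) = 3 * (n * δ) * η := by ring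
              _ = η := by rw [hnδ]; ring
    rw [hsum]
    have h1 : |sgn G (b i) (b j) * (ε (b i) * c (b j) (st a b hab (b i)))| ≤ 3 * η := by
      rw [abs_mul, abs_mul, sgn_abs, hεabs']
      linarith [hcsp _ huj _ (hnsp j i)]
    have h2 : |sgn G (b i) (b j) * (ε (b j) * c (b i) (st a b hab (b j)))| ≤ 3 * η := by
      rw [abs_mul, abs_mul, sgn_abs, hεabs']
      linarith [hcsp _ hui _ (hnsp i j)]
    have h3 : |sgn G (b i) (b j) * ∑ w ∈ univ.erase w0, c (b i) w * c (b j) w| ≤ η := by
      rw [abs_mul, sgn_abs, one_mul]
      exact hrest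
    have h4 := (abs_le.1 h1).1
    have h5 := (abs_le.1 h2).1
    have h6 := (abs_le.1 h3).1
    have h7 : sgn G (b i) (b j) * (δ ^ 2 * sgn G (b i) (b j)) = 8 * η := by
      rw [mul_comm, mul_assoc, sgn_mul, mul_one, hη]
      ring
    have e : ∀ s A B C R : ℝ, s * (0 + A + B + (C + R)) = s * A + s * B + s * C + s * R := by
      intro s A B C R
      ring
    rw [e, h7]
    linarith
  have all : ∀ u v, u ≠ v →
      η ≤ sgn G u v * (∑ w, ((if w = st a b hab u then ε u else 0) + c u w) *
        ((if w = st a b hab v then ε v else 0) + c v w)) := by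
    intro u v huv
    by_cases hv : v ∈ univ.image b
    · by_cases hu : u ∈ univ.image b
      · obtain ⟨i, -, rfl⟩ := mem_image.1 hu
        obtain ⟨j, -, rfl⟩ := mem_image.1 hv
        exact key2 i j (fun h => huv (by rw [h]))
      · rw [sgn_comm G u v, sym u v]
        exact key v u huv.symm hu
    · exact key u v huv hv
  apply class_of_margin' G d hcard
    (fun v w => (if w = st a b hab v then ε v else 0) + c v w) (η / 2) (by linarith) (by linarith)
  · intro v
    rw [ip, if_pos rfl, hst0 v, hεabs]
    have h0 : 0 ≤ ∑ w, c v w * c v w := sum_nonneg fun w _ => mul_self_nonneg _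
    have h1 := (abs_le.1 (small_sum n hcardn (c v) (c v) δ δ (hcabs v) (hcabs v) hδ0.le hδ0.le)).2
    have h2 : (n : ℝ) * (δ * δ) = δ / 3 := by
      calc (n : ℝ) * (δ * δ) = (n * δ) * δ := by ring
        _ = δ / 3 := by rw [hnδ]; ring
    rw [h2] at h1
    constructor <;> linarith
  · intro u v hadj
    have := all u v (G.ne_of_adj hadj)
    rw [sgn_adj G u v hadj, one_mul] at this
    linarith
  · intro u v huv hadj
    have h1 := all u v huv
    rw [sgn_nadj G u v hadj] at h1
    linarith

end Pool.Agent.Helper848.SD
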