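import Mathlib

set_option autoImplicit false

/-!
# Graphs without two disjoint non-edges are circle graphs
-/

namespace Pool.Agent.Helper848.SD

open Finset

/-- first coordinate -/
noncomputable def px : Fin 4 → ℝ := ![0, 1, 5 / 4, 5 / 4]
/-- second coordinate -/
noncomputable def py : Fin 4 → ℝ := ![1, 0, 0, 0]
/-- time coordinate -/
noncomputable def pt : Fin 4 → ℝ := ![0, 0, 3 / 4, -3 / 4]

theorem rep_of_types {V : Type*} (G : SimpleGraph V) (c : V → Fin 4)
    (hc : ∀ u v, u ≠ v → (G.Adj u v ↔ ¬ (c u ≠ c v ∧ c u ≠ 0 ∧ c v ≠ 0))) :
    ∃ (P : V → Fin 2 → ℝ) (τ : V → ℝ), (∀ u, ∑ a, P u a * P u a - τ u * τ u = 1) ∧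
      ∀ u v, u ≠ v → (G.Adj u v ↔ |∑ a, P u a * P v a - τ u * τ v| ≤ 1) := by
  refine ⟨fun u => ![px (c u), py (c u)], fun u => pt (c u), ?_, ?_⟩
  · intro u
    simp only [Fin.sum_univ_two, Matrix.cons_val_zero, Matrix.cons_val_one]
    generalize c u = a
    fin_cases a <;> simp [px, py, pt] <;> norm_num
  · intro u v huv
    rw [hc u v huv]
    simp only [Fin.sum_univ_two, Matrix.cons_val_zero, Matrix.cons_val_one]
    generalize c u = a
    generalize c v = b
    have hle : ∀ x : ℝ, |x| ≤ 1 ↔ -1 ≤ x ∧ x ≤ 1 := fun x => abs_le
    fin_cases a <;> fin_cases b <;> simp [px, py, pt, hle] <;> norm_num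

theorem caseB {V : Type*} (G : SimpleGraph V)
    (h : ∀ i j k l, i ≠ j → k ≠ l → ¬ G.Adj i j → ¬ G.Adj k l → i = k ∨ i = l ∨ j = k ∨ j = l) :
    ∃ (P : V → Fin 2 → ℝ) (τ : V → ℝ), (∀ u, ∑ a, P u a * P u a - τ u * τ u = 1) ∧
      ∀ u v, u ≠ v → (G.Adj u v ↔ |∑ a, P u a * P v a - τ u * τ v| ≤ 1) := by
  classical
  -- star with centre `s`
  have star : ∀ s : V, (∀ k l, k ≠ l → ¬ G.Adj k l → s = k ∨ s = l) →
      ∃ (P : V → Fin 2 → ℝ) (τ : V → ℝ), (∀ u, ∑ a, P u a * P u a - τ u * τ u = 1) ∧
      ∀ u v, u ≠ v → (G.Adj u v ↔ |∑ a, P u a * P v a - τ u * τ v| ≤ 1) := by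
    intro s hs
    apply rep_of_types G (fun u => if u = s then 1 else if G.Adj s u then 0 else 2)
    intro u v huv
    by_cases hadj : G.Adj u v
    · simp only [hadj, true_iff]
      rintro ⟨h1, h2, h3⟩
      by_cases hu : u = s
      · subst hu
        rw [if_neg huv.symm, if_pos hadj] at h3
        exact h3 rfl
      · by_cases hv : v = s
        · subst hv
          rw [if_neg huv, if_pos hadj.symm] at h2
          exact h2 rfl
        · rw [if_neg hu] at h1 h2
          rw [if_neg hv] at h1 h3
          split_ifs at h1 h2 h3 <;> simp_all
    · simp only [hadj, false_iff, not_not]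
      rcases hs u v huv hadj with rfl | rfl
      · rw [if_pos rfl, if_neg huv.symm, if_neg hadj]
        refine ⟨by decide, by decide, by decide⟩
      · have : ¬ G.Adj s u := fun h => hadj h.symm
        rw [if_pos rfl, if_neg huv, if_neg this]
        refine ⟨by decide, by decide, by decide⟩
  by_cases h0 : ∃ i j, i ≠ j ∧ ¬ G.Adj i j
  · obtain ⟨i, j, hij, hnij⟩ := h0
    by_cases h1 : ∀ k l, k ≠ l → ¬ G.Adj k l → i = k ∨ i = l
    · exact star i h1
    · push Not at h1
      obtain ⟨k, l, hkl, hnkl, hik, hil⟩ := h1
      -- one of `k, l` is `j`
      obtain ⟨k, hkj, hki, hnjk⟩ : ∃ k, k ≠ j ∧ k ≠ i ∧ ¬ G.Adj j k := by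
        rcases h i j k l hij hkl hnij hnkl with e | e | e | e
        · exact absurd e hik
        · exact absurd e hil
        · exact ⟨l, by rw [e]; exact hkl.symm, hil.symm, by rw [e]; exact hnkl⟩
        · exact ⟨k, by rw [e]; exact hkl, hik.symm, by rw [e]; exact fun h => hnkl h.symm⟩
      by_cases h2 : ∀ p q, p ≠ q → ¬ G.Adj p q → j = p ∨ j = q
      · exact star j h2
      · push Not at h2
        obtain ⟨p, q, hpq, hnpq, hjp, hjq⟩ := h2
        have h3 := h i j p q hij hpq hnij hnpq
        have h4 := h j k p q hkj.symm hpq hnjk hnpq
        have hik' : ¬ G.Adj i k := by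
          rcases h3 with e | e | e | e
          · rcases h4 with e' | e' | e' | e'
            · exact absurd e' hjp
            · exact absurd e' hjq
            · exact absurd (e'.trans e.symm) hki
            · rw [e, e']; exact hnpq
          · rcases h4 with e' | e' | e' | e'
            · exact absurd e' hjp
            · exact absurd e' hjq
            · rw [e, e']; exact fun h => hnpq h.symm
            · exact absurd (e'.trans e.symm) hki
          · exact absurd e hjp
          · exact absurd e hjq
        apply rep_of_types G (fun u => if u = i then 1 else if u = j then 2 else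
          if u = k then 3 else 0)
        intro u v huv
        by_cases hadj : G.Adj u v
        · simp only [hadj, true_iff]
          rintro ⟨h5, h6, h7⟩
          have hu : u = i ∨ u = j ∨ u = k := by
            by_contra hcon
            push Not at hcon
            rw [if_neg hcon.1, if_neg hcon.2.1, if_neg hcon.2.2] at h6
            exact h6 rfl
          have hv : v = i ∨ v = j ∨ v = k := by
            by_contra hcon
            push Not at hcon
            rw [if_neg hcon.1, if_neg hcon.2.1, if_neg hcon.2.2] at h7
            exact h7 rfl
          have hij' : ¬ G.Adj j i := fun h => hnij h.symm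
          have hjk' : ¬ G.Adj k j := fun h => hnjk h.symm
          have hki' : ¬ G.Adj k i := fun h => hik' h.symm
          rcases hu with rfl | rfl | rfl <;> rcases hv with rfl | rfl | rfl
          all_goals first
            | exact huv rfl
            | exact hnij hadj
            | exact hij' hadj
            | exact hnjk hadj
            | exact hjk' hadj
            | exact hik' hadj
            | exact hki' hadj
        · simp only [hadj, false_iff, not_not]
          have h5 := h i j u v hij huv hnij hadj
          have h6 := h j k u v hkj.symm huv hnjk hadj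
          have h7 := h i k u v hki.symm huv hik' hadj
          have hu : u = i ∨ u = j ∨ u = k := by
            rcases h5 with e | e | e | e
            · exact Or.inl e.symm
            · rcases h6 with e' | e' | e' | e'
              · exact Or.inr (Or.inl e'.symm)
              · exact absurd (e.trans e'.symm) hij
              · exact Or.inr (Or.inr e'.symm)
              · exact absurd (e.trans e'.symm) hki.symm
            · exact Or.inr (Or.inl e.symm)
            · rcases h7 with e' | e' | e' | e'
              · exact Or.inl e'.symm
              · exact absurd (e'.trans e.symm) hij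
              · exact Or.inr (Or.inr e'.symm)
              · exact absurd (e'.trans e.symm) hkj
          have hv : v = i ∨ v = j ∨ v = k := by
            rcases h5 with e | e | e | e
            · rcases h6 with e' | e' | e' | e'
              · exact absurd (e.trans e'.symm) hij
              · exact Or.inr (Or.inl e'.symm)
              · exact absurd (e.trans e'.symm) hki.symm
              · exact Or.inr (Or.inr e'.symm)
            · exact Or.inl e.symm
            · rcases h7 with e' | e' | e' | e'
              · exact absurd (e'.trans e.symm) hij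
              · exact Or.inl e'.symm
              · exact absurd (e'.trans e.symm) hkj
              · exact Or.inr (Or.inr e'.symm)
            · exact Or.inr (Or.inl e.symm)
          rcases hu with rfl | rfl | rfl <;> rcases hv with rfl | rfl | rfl
          all_goals first
            | exact absurd rfl huv
            | (simp [hij, hij.symm, hkj, hkj.symm, hki, hki.symm])
  · push Not at h0
    apply rep_of_types G (fun _ => 0)
    intro u v huv
    simp [h0 u v huv]

end Pool.Agent.Helper848.SD
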