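import Pool.Agent.Helper91.Eig

set_option autoImplicit false

/-!
# Spectral lemmas for the upper bound on the sphere dimension
-/

namespace Pool.Agent.Helper848.SD

open Finset Pool.Agent.Helper91.Eig

variable {V : Type} [Fintype V] [DecidableEq V]

/-- Weyl's inequality, one side -/
theorem weyl {A B : Matrix V V ℝ} (hA : A.IsHermitian) (hB : B.IsHermitian) (k : ℕ)
    (hk : k < Fintype.card V) (c : ℝ)
    (h : ∀ x : V → ℝ, qf A x - c * ∑ u, x u ^ 2 ≤ qf B x) :
    hA.eigenvalues₀ ⟨k, hk⟩ - c ≤ hB.eigenvalues₀ ⟨k, hk⟩ := by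
  have hk' : k + 1 ≤ Fintype.card V := Nat.succ_le_of_lt hk
  apply low_bound hB k hk _ (fun a => ev hA (Fin.castLE hk' a))
  · intro c' hc'
    have h1 := comb_inner hA hk' c' c'
    have h2 : ∀ u, comb hA hk' c' u = 0 := hc'
    simp only [h2, mul_zero, sum_const_zero] at h1
    funext j
    have := (sum_eq_zero_iff_of_nonneg (fun j _ => mul_self_nonneg (c' j))).mp h1.symm j
      (mem_univ j)
    simpa using this
  · intro c'
    have h1 := comb_inner hA hk' c' c'
    have h2 := comb_qf hA hk' c'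
    have h3 := h (comb hA hk' c')
    have h4 : hA.eigenvalues₀ ⟨k, hk⟩ * ∑ j, c' j * c' j ≤
        ∑ j, c' j ^ 2 * hA.eigenvalues₀ (Fin.castLE hk' j) := by
      rw [mul_sum]
      apply sum_le_sum
      intro j _
      rw [mul_comm, ← sq]
      apply mul_le_mul_of_nonneg_left _ (sq_nonneg _)
      apply hA.eigenvalues₀_antitone
      rw [Fin.le_def]
      simp only [Fin.val_castLE]
      omega
    have h5 : ∑ u, comb hA hk' c' u ^ 2 = ∑ j, c' j * c' j := by
      rw [← h1]
      simp only [sq]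
    have e1 : (fun u => ∑ a, c' a * ev hA (Fin.castLE hk' a) u) = comb hA hk' c' := rfl
    have e2 : ∑ u, (∑ a, c' a * ev hA (Fin.castLE hk' a) u) ^ 2 = ∑ u, comb hA hk' c' u ^ 2 := rfl
    rw [e1, e2, h5]
    rw [h5, h2] at h3
    linarith

/-- if the quadratic form is nonpositive on a plane, then the second smallest eigenvalue is
nonpositive -/
theorem second_nonpos {A : Matrix V V ℝ} (hA : A.IsHermitian) (m : ℕ)
    (hc : Fintype.card V = m + 2) (hm : m < Fintype.card V) (p q : V → ℝ)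
    (hne : ∀ α β : ℝ, (∀ u, α * p u + β * q u = 0) → α = 0 ∧ β = 0)
    (hQ : ∀ α β : ℝ, qf A (fun u => α * p u + β * q u) ≤ 0) :
    hA.eigenvalues₀ ⟨m, hm⟩ ≤ 0 := by
  by_contra hcon
  push Not at hcon
  have hL : m + 1 < Fintype.card V := by omega
  obtain ⟨α, β, hαβ, h0⟩ : ∃ α β : ℝ, ¬ (α = 0 ∧ β = 0) ∧
      ∑ u, ev hA ⟨m + 1, hL⟩ u * (α * p u + β * q u) = 0 := by
    set a := ∑ u, ev hA ⟨m + 1, hL⟩ u * p u with ha
    set b := ∑ u, ev hA ⟨m + 1, hL⟩ u * q u with hb
    have key : ∀ α β : ℝ, ∑ u, ev hA ⟨m + 1, hL⟩ u * (α * p u + β * q u) = α * a + β * b := by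
      intro α β
      rw [ha, hb, mul_sum, mul_sum, ← sum_add_distrib]
      apply sum_congr rfl
      intro u _
      ring
    by_cases h : a = 0 ∧ b = 0
    · refine ⟨1, 0, by simp, ?_⟩
      rw [key, h.1, h.2]
      ring
    · refine ⟨b, -a, ?_, ?_⟩
      · rintro ⟨h1, h2⟩
        exact h ⟨by linarith, h1⟩
      · rw [key]
        ring
  set x : V → ℝ := fun u => α * p u + β * q u with hx
  have hxne : 0 < ∑ u, x u ^ 2 := by
    rcases (Finset.sum_nonneg fun u (_ : u ∈ Finset.univ) => sq_nonneg (x u)).lt_or_eq with h | h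
    · exact h
    · exfalso
      apply hαβ
      apply hne
      intro u
      have := (Finset.sum_eq_zero_iff_of_nonneg (fun u _ => sq_nonneg (x u))).mp h.symm u
        (Finset.mem_univ u)
      exact pow_eq_zero_iff (two_ne_zero) |>.mp this
  let g : Fin (Fintype.card V) → ℝ := fun j => ∑ v, ev hA j v * x v
  have hxc : x = comb hA le_rfl g := by
    funext u
    rw [ev_expand hA x u]
    simp only [comb, g, Fin.castLE_rfl, id]
  have e1 : ∑ u, x u ^ 2 = ∑ j, g j * g j := by
    rw [← comb_inner hA le_rfl g g, ← hxc]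
    simp only [sq]
  have hQ2 : hA.eigenvalues₀ ⟨m, hm⟩ * ∑ u, x u ^ 2 ≤ qf A x := by
    rw [e1]
    conv_rhs => rw [hxc, comb_qf]
    rw [Finset.mul_sum]
    apply Finset.sum_le_sum
    intro j _
    by_cases hj : j.val ≤ m
    · have : hA.eigenvalues₀ ⟨m, hm⟩ ≤ hA.eigenvalues₀ j := by
        apply hA.eigenvalues₀_antitone
        rw [Fin.le_def]
        exact hj
      simp only [Fin.castLE_rfl, id]
      nlinarith [sq_nonneg (g j), mul_le_mul_of_nonneg_left this (sq_nonneg (g j))]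
    · have hj' : j = ⟨m + 1, hL⟩ := by
        apply Fin.ext
        have := j.2
        simp only
        omega
      have : g j = 0 := by
        rw [hj']
        exact h0
      rw [this]
      simp
  have h3 := hQ α β
  have h4 := mul_pos hcon hxne
  have h5 : qf A x ≤ 0 := h3
  linarith

omit [DecidableEq V] in
theorem qf_bound (C : Matrix V V ℝ) (x : V → ℝ) :
    |qf C x| ≤ (∑ u, ∑ v, |C u v|) * ∑ u, x u ^ 2 := by
  unfold qf
  rw [sum_mul]
  refine (abs_sum_le_sum_abs _ _).trans (sum_le_sum fun u _ => ?_)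
  rw [sum_mul]
  refine (abs_sum_le_sum_abs _ _).trans (sum_le_sum fun v _ => ?_)
  rw [abs_mul]
  apply mul_le_mul_of_nonneg_left _ (abs_nonneg _)
  have hu : x u ^ 2 ≤ ∑ w, x w ^ 2 :=
    single_le_sum (f := fun w => x w ^ 2) (fun w _ => sq_nonneg _) (mem_univ u)
  have hv : x v ^ 2 ≤ ∑ w, x w ^ 2 :=
    single_le_sum (f := fun w => x w ^ 2) (fun w _ => sq_nonneg _) (mem_univ v)
  rw [abs_le]
  constructor <;> nlinarith [sq_nonneg (x u + x v), sq_nonneg (x u - x v)]

/-- along a linear path some member has a prescribed vanishing eigenvalue -/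
theorem exists_level (A C : Matrix V V ℝ) (hA : A.IsHermitian) (hC : C.IsHermitian) (k : ℕ)
    (hk : k < Fintype.card V) (T : ℝ) (hT : 0 ≤ T) (h0 : 0 ≤ hA.eigenvalues₀ ⟨k, hk⟩)
    (hend : ∀ h : (A - T • C).IsHermitian, h.eigenvalues₀ ⟨k, hk⟩ ≤ 0) :
    ∃ s : ℝ, 0 ≤ s ∧ ∃ h : (A - s • C).IsHermitian, h.eigenvalues₀ ⟨k, hk⟩ = 0 := by
  have hH : ∀ s : ℝ, (A - s • C).IsHermitian := by
    intro s
    refine hA.sub ?_
    unfold Matrix.IsHermitian at *
    rw [Matrix.conjTranspose_smul, hC]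
    simp
  set K : ℝ := ∑ u, ∑ v, |C u v| with hK
  have hK0 : 0 ≤ K := sum_nonneg fun u _ => sum_nonneg fun v _ => abs_nonneg _
  have hqf : ∀ (s : ℝ) (x : V → ℝ), qf (A - s • C) x = qf A x - s * qf C x := by
    intro s x
    unfold qf
    rw [mul_sum, ← sum_sub_distrib]
    apply sum_congr rfl
    intro u _
    rw [mul_sum, ← sum_sub_distrib]
    apply sum_congr rfl
    intro v _
    simp only [Matrix.sub_apply, Matrix.smul_apply, smul_eq_mul]
    ring
  set f : ℝ → ℝ := fun s => (hH s).eigenvalues₀ ⟨k, hk⟩ with hf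
  have hlip : ∀ s t : ℝ, f s - K * |s - t| ≤ f t := by
    intro s t
    apply weyl (hH s) (hH t) k hk
    intro x
    rw [hqf, hqf]
    have h1 := qf_bound C x
    have h2 : |(s - t) * qf C x| ≤ |s - t| * (K * ∑ u, x u ^ 2) := by
      rw [abs_mul]
      exact mul_le_mul_of_nonneg_left h1 (abs_nonneg _)
    have h3 := (abs_le.1 h2).1
    nlinarith
  have hcont : Continuous f := by
    have : LipschitzWith (Real.toNNReal K) f := by
      apply LipschitzWith.of_dist_le_mul
      intro s t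
      rw [Real.dist_eq, Real.dist_eq]
      have h1 := hlip s t
      have h2 := hlip t s
      rw [abs_sub_comm t s] at h2
      rw [Real.coe_toNNReal K hK0, abs_le]
      constructor <;> linarith
    exact this.continuous
  have hf0 : 0 ≤ f 0 := by
    have : ∀ (B : Matrix V V ℝ) (hB : B.IsHermitian), B = A → 0 ≤ hB.eigenvalues₀ ⟨k, hk⟩ := by
      intro B hB h
      subst h
      exact h0
    exact this _ (hH 0) (by simp)
  have hfT : f T ≤ 0 := hend (hH T)
  obtain ⟨s, hs, hs0⟩ := intermediate_value_Icc' hT hcont.continuousOn ⟨hfT, hf0⟩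
  exact ⟨s, hs.1, hH s, hs0⟩

/-- a symmetric matrix whose second smallest eigenvalue vanishes is a Gram matrix of vectors in a
Lorentz space with `card - 2` spacelike dimensions -/
theorem lorentz_gram {A : Matrix V V ℝ} (hA : A.IsHermitian) (m : ℕ)
    (hc : Fintype.card V = m + 2) (hm : m < Fintype.card V)
    (h0 : hA.eigenvalues₀ ⟨m, hm⟩ = 0) :
    ∃ (P : V → Fin m → ℝ) (τ : V → ℝ), ∀ u v, A u v = ∑ j, P u j * P v j - τ u * τ v := by
  have hL : m + 1 < Fintype.card V := by omega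
  have hsp : ∀ u v, A u v = ∑ j, hA.eigenvalues₀ j * (ev hA j u * ev hA j v) := by
    intro u v
    have h1 : A u v = ∑ j, (∑ w, ev hA j w * A w v) * ev hA j u :=
      ev_expand hA (fun w => A w v) u
    rw [h1]
    apply sum_congr rfl
    intro j _
    have h2 : ∑ w, ev hA j w * A w v = hA.eigenvalues₀ j * ev hA j v := by
      rw [← ev_eig hA j v]
      apply sum_congr rfl
      intro w _
      have : A w v = A v w := by
        have := hA.apply v w
        simpa using this
      rw [this]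
      ring
    rw [h2]
    ring
  refine ⟨fun u j => Real.sqrt (hA.eigenvalues₀ ⟨j.val, by omega⟩) * ev hA ⟨j.val, by omega⟩ u,
    fun u => Real.sqrt (-hA.eigenvalues₀ ⟨m + 1, hL⟩) * ev hA ⟨m + 1, hL⟩ u, ?_⟩
  intro u v
  rw [hsp u v]
  have e := Equiv.sum_comp (finCongr hc.symm)
    (fun j : Fin (Fintype.card V) => hA.eigenvalues₀ j * (ev hA j u * ev hA j v))
  rw [← e, Fin.sum_univ_castSucc, Fin.sum_univ_castSucc]
  have h1 : hA.eigenvalues₀ ⟨m + 1, hL⟩ ≤ 0 := by
    rw [← h0]
    apply hA.eigenvalues₀_antitone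
    rw [Fin.le_def]
    simp
  have h2 : ∀ j : Fin m, 0 ≤ hA.eigenvalues₀ ⟨j.val, by omega⟩ := by
    intro j
    rw [← h0]
    apply hA.eigenvalues₀_antitone
    rw [Fin.le_def]
    exact j.2.le
  have h3 : hA.eigenvalues₀ (finCongr hc.symm (Fin.castSucc (Fin.last m))) = 0 := h0
  rw [h3, zero_mul, add_zero]
  have h4 : finCongr hc.symm (Fin.last (m + 1)) = ⟨m + 1, hL⟩ := rfl
  rw [h4, sub_eq_add_neg]
  congr 1
  · apply sum_congr rfl
    intro j _
    have h5 : finCongr hc.symm (Fin.castSucc (Fin.castSucc j)) = ⟨j.val, by omega⟩ := rfl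
    rw [h5]
    have := Real.mul_self_sqrt (h2 j)
    calc hA.eigenvalues₀ ⟨j.val, by omega⟩ * (ev hA ⟨j.val, by omega⟩ u * ev hA ⟨j.val, by omega⟩ v)
        = (Real.sqrt (hA.eigenvalues₀ ⟨j.val, by omega⟩) *
          Real.sqrt (hA.eigenvalues₀ ⟨j.val, by omega⟩)) *
          (ev hA ⟨j.val, by omega⟩ u * ev hA ⟨j.val, by omega⟩ v) := by rw [this]
      _ = _ := by ring
  · have := Real.mul_self_sqrt (neg_nonneg.2 h1)
    linear_combination (ev hA ⟨m + 1, hL⟩ u * ev hA ⟨m + 1, hL⟩ v) * this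

end Pool.Agent.Helper848.SD
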