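import Pool.Agent.Helper848.SD.Spec

set_option autoImplicit false

/-!
# Lorentz representations of graphs with two disjoint non-edges
-/

namespace Pool.Agent.Helper848.SD

open Finset Pool.Agent.Helper91.Eig

open Classical in
/-- base matrix: `1` on the diagonal, `-1` on edges, slightly less than `-1` on non-edges -/
noncomputable def baseM (m : ℕ) (G : SimpleGraph (Fin (m + 2))) :
    Matrix (Fin (m + 2)) (Fin (m + 2)) ℝ :=
  fun u v => if u = v then 1 else if G.Adj u v then -1 else -(1 + 1 / ((m : ℝ) + 2))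

/-- direction of the path -/
noncomputable def dirM (m : ℕ) (i j k l : Fin (m + 2)) : Matrix (Fin (m + 2)) (Fin (m + 2)) ℝ :=
  fun u v => if (u = i ∧ v = j) ∨ (u = j ∧ v = i) ∨ (u = k ∧ v = l) ∨ (u = l ∧ v = k) then 1 else 0

theorem baseM_herm (m : ℕ) (G : SimpleGraph (Fin (m + 2))) : (baseM m G).IsHermitian := by
  apply Matrix.IsHermitian.ext
  intro u v
  simp only [baseM, star_trivial]
  by_cases h : u = v
  · subst h; rfl
  · rw [if_neg h, if_neg (Ne.symm h)]
    by_cases h2 : G.Adj u v
    · rw [if_pos h2, if_pos h2.symm]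
    · rw [if_neg h2, if_neg (fun h3 => h2 h3.symm)]

theorem dirM_herm (m : ℕ) (i j k l : Fin (m + 2)) : (dirM m i j k l).IsHermitian := by
  apply Matrix.IsHermitian.ext
  intro u v
  simp only [dirM, star_trivial]
  congr 1
  apply propext
  tauto

theorem eps_le (m : ℕ) : 0 < 1 / ((m : ℝ) + 2) ∧ 1 / ((m : ℝ) + 2) ≤ 1 := by
  have : (0 : ℝ) ≤ m := Nat.cast_nonneg m
  constructor
  · positivity
  · rw [div_le_one (by positivity)]
    linarith

theorem base_nonneg (m : ℕ) (G : SimpleGraph (Fin (m + 2))) (x : Fin (m + 2) → ℝ)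
    (hx : ∑ u, x u = 0) : 0 ≤ qf (baseM m G) x := by
  have he := eps_le m
  set ε : ℝ := 1 / ((m : ℝ) + 2) with hε
  have hterm : ∀ u v, (if u = v then 2 * (x u * x v) else 0) - x u * x v
      - ε * ((x u ^ 2 + x v ^ 2) / 2) ≤ baseM m G u v * (x u * x v) := by
    intro u v
    have h1 : 0 ≤ x u ^ 2 + x v ^ 2 := by positivity
    have h2 : x u * x v ≤ (x u ^ 2 + x v ^ 2) / 2 := by nlinarith [sq_nonneg (x u - x v)]
    simp only [baseM]
    rw [← hε]
    split_ifs with h3 h4
    · nlinarith
    · nlinarith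
    · nlinarith
  have hsum : ∑ u, ∑ v, ((if u = v then 2 * (x u * x v) else 0) - x u * x v
      - ε * ((x u ^ 2 + x v ^ 2) / 2)) ≤ qf (baseM m G) x :=
    sum_le_sum fun u _ => sum_le_sum fun v _ => hterm u v
  refine le_trans ?_ hsum
  simp only [sum_sub_distrib, ← mul_sum, ← sum_div, sum_add_distrib, sum_ite_eq, mem_univ, if_true]
  rw [← sum_mul, hx]
  simp only [sum_const, card_univ, Fintype.card_fin, nsmul_eq_mul, ← mul_sum]
  have h3 : 0 ≤ ∑ u, x u ^ 2 := sum_nonneg fun u _ => sq_nonneg _
  have h4 : ε * ((m : ℝ) + 2) = 1 := by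
    rw [hε]
    field_simp
  have h5 : ∑ u, x u * x u = ∑ u, x u ^ 2 := sum_congr rfl fun u _ => (sq (x u)).symm
  rw [h5]
  push_cast
  nlinarith

theorem base_eig (m : ℕ) (G : SimpleGraph (Fin (m + 2))) (hm : m < Fintype.card (Fin (m + 2))) :
    0 ≤ (baseM_herm m G).eigenvalues₀ ⟨m, hm⟩ := by
  apply low_bound (baseM_herm m G) m hm 0
    (fun a u => if u = Fin.castSucc a then 1 else if u = Fin.last (m + 1) then -1 else 0)
  · intro c hc
    funext a
    have h := hc (Fin.castSucc a)
    have h2 : ∀ b : Fin (m + 1), c b * (if Fin.castSucc a = Fin.castSucc b then (1 : ℝ) else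
        if Fin.castSucc a = Fin.last (m + 1) then -1 else 0) = if a = b then c b else 0 := by
      intro b
      have h3 : Fin.castSucc a ≠ Fin.last (m + 1) := (Fin.castSucc_lt_last a).ne
      rw [if_neg h3]
      by_cases h4 : a = b
      · rw [if_pos h4, if_pos (by rw [h4])]; ring
      · rw [if_neg h4, if_neg (fun h5 => h4 (Fin.castSucc_injective _ h5))]; ring
    simp only [h2] at h
    simpa using h
  · intro c
    rw [zero_mul]
    apply base_nonneg
    rw [sum_comm]
    apply sum_eq_zero
    intro a _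
    rw [← mul_sum, Fin.sum_univ_castSucc]
    have h3 : ∀ b : Fin (m + 1), Fin.castSucc b ≠ Fin.last (m + 1) :=
      fun b => (Fin.castSucc_lt_last b).ne
    have h4 : ∀ b : Fin (m + 1), (if Fin.castSucc b = Fin.castSucc a then (1 : ℝ) else
        if Fin.castSucc b = Fin.last (m + 1) then -1 else 0) = if b = a then 1 else 0 := by
      intro b
      rw [if_neg (h3 b)]
      by_cases h5 : b = a
      · rw [if_pos h5, if_pos (by rw [h5])]
      · rw [if_neg h5, if_neg (fun h6 => h5 (Fin.castSucc_injective _ h6))]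
    simp only [h4]
    rw [if_neg (h3 a).symm]
    simp

theorem qf_four {V : Type} [Fintype V] [DecidableEq V] (M : Matrix V V ℝ) (w : Fin 4 → V)
    (c : Fin 4 → ℝ) :
    qf M (fun u => ∑ a, c a * (if u = w a then 1 else 0)) =
      ∑ a, ∑ b, c a * c b * M (w a) (w b) := by
  unfold qf
  have h1 : ∀ u v, M u v * ((∑ a, c a * (if u = w a then (1 : ℝ) else 0)) *
      ∑ b, c b * (if v = w b then (1 : ℝ) else 0)) =
      ∑ a, ∑ b, c a * c b * (M u v * ((if u = w a then 1 else 0) * (if v = w b then 1 else 0))) := by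
    intro u v
    rw [sum_mul_sum, mul_sum]
    apply sum_congr rfl
    intro a _
    rw [mul_sum]
    apply sum_congr rfl
    intro b _
    ring
  simp only [h1]
  have h2 : ∀ u : V, ∑ v, ∑ a, ∑ b, c a * c b *
      (M u v * ((if u = w a then (1 : ℝ) else 0) * (if v = w b then 1 else 0))) =
      ∑ a, ∑ b, ∑ v, c a * c b *
      (M u v * ((if u = w a then (1 : ℝ) else 0) * (if v = w b then 1 else 0))) := by
    intro u
    rw [sum_comm]
    apply sum_congr rfl
    intro a _
    rw [sum_comm]
  simp only [h2]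
  rw [sum_comm]
  apply sum_congr rfl
  intro a _
  rw [sum_comm]
  apply sum_congr rfl
  intro b _
  simp

theorem caseA (m : ℕ) (G : SimpleGraph (Fin (m + 2))) (i j k l : Fin (m + 2))
    (hij : i ≠ j) (hkl : k ≠ l) (hik : i ≠ k) (hil : i ≠ l) (hjk : j ≠ k) (hjl : j ≠ l)
    (h1 : ¬ G.Adj i j) (h2 : ¬ G.Adj k l) :
    ∃ (P : Fin (m + 2) → Fin m → ℝ) (τ : Fin (m + 2) → ℝ),
      (∀ u, ∑ a, P u a * P u a - τ u * τ u = 1) ∧
      ∀ u v, u ≠ v → (G.Adj u v ↔ |∑ a, P u a * P v a - τ u * τ v| ≤ 1) := by
  have he := eps_le m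
  have hm : m < Fintype.card (Fin (m + 2)) := by simp
  obtain ⟨s, hs, hH, hs0⟩ := exists_level (baseM m G) (dirM m i j k l) (baseM_herm m G)
    (dirM_herm m i j k l) m hm 3 (by norm_num) (base_eig m G hm) (by
      intro h
      apply second_nonpos h m (by simp) hm
        (fun u => (if u = i then 1 else 0) + (if u = j then 1 else 0))
        (fun u => (if u = k then 1 else 0) + (if u = l then 1 else 0))
      · intro α β hab
        have ha := hab i
        have hb := hab k
        simp only [hij, hik, hil, hkl, if_true, if_false, hik.symm, hjk.symm] at ha hb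
        constructor <;> linarith
      · intro α β
        have hfun : (fun u => α * ((if u = i then (1 : ℝ) else 0) + (if u = j then 1 else 0)) +
            β * ((if u = k then 1 else 0) + (if u = l then 1 else 0))) =
            fun u => ∑ a, (![α, α, β, β] : Fin 4 → ℝ) a *
              (if u = (![i, j, k, l] : Fin 4 → Fin (m + 2)) a then 1 else 0) := by
          funext u
          rw [Fin.sum_univ_four]
          show _ = α * (if u = i then (1 : ℝ) else 0) + α * (if u = j then 1 else 0) +
            β * (if u = k then 1 else 0) + β * (if u = l then 1 else 0)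
          ring
        rw [hfun, qf_four]
        simp only [Fin.sum_univ_four, Matrix.cons_val_zero, Matrix.cons_val_one, Matrix.cons_val]
        set M := baseM m G - (3 : ℝ) • dirM m i j k l with hM
        have hb : ∀ u v, u ≠ v → -(1 + 1 / ((m : ℝ) + 2)) ≤ baseM m G u v ∧ baseM m G u v ≤ -1 := by
          intro u v huv
          simp only [baseM, if_neg huv]
          split_ifs
          · constructor <;> linarith
          · constructor <;> linarith
        have hdiag : ∀ u, baseM m G u u = 1 := by
          intro u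
          simp [baseM]
        have hd0 : ∀ u v, ¬ ((u = i ∧ v = j) ∨ (u = j ∧ v = i) ∨ (u = k ∧ v = l) ∨
            (u = l ∧ v = k)) → M u v = baseM m G u v := by
          intro u v huv
          simp [hM, dirM, huv]
        have hd1 : ∀ u v, ((u = i ∧ v = j) ∨ (u = j ∧ v = i) ∨ (u = k ∧ v = l) ∨
            (u = l ∧ v = k)) → M u v = baseM m G u v - 3 := by
          intro u v huv
          simp only [hM, dirM, Matrix.sub_apply, Matrix.smul_apply, if_pos huv, smul_eq_mul]
          ring
        have n1 : ¬ G.Adj j i := fun h => h1 h.symm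
        have n2 : ¬ G.Adj l k := fun h => h2 h.symm
        have eij : M i j = -(1 + 1 / ((m : ℝ) + 2)) - 3 := by
          rw [hd1 _ _ (by tauto)]; simp [baseM, hij, h1]
        have eji : M j i = -(1 + 1 / ((m : ℝ) + 2)) - 3 := by
          rw [hd1 _ _ (by tauto)]; simp [baseM, hij.symm, n1]
        have ekl : M k l = -(1 + 1 / ((m : ℝ) + 2)) - 3 := by
          rw [hd1 _ _ (by tauto)]; simp [baseM, hkl, h2]
        have elk : M l k = -(1 + 1 / ((m : ℝ) + 2)) - 3 := by
          rw [hd1 _ _ (by tauto)]; simp [baseM, hkl.symm, n2]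
        have eii : M i i = 1 := by
          rw [hd0 _ _ (by
            rintro (⟨_, h⟩ | ⟨h, _⟩ | ⟨h, _⟩ | ⟨h, _⟩)
            exacts [hij h, hij h, hik h, hil h]), hdiag]
        have ejj : M j j = 1 := by
          rw [hd0 _ _ (by
            rintro (⟨h, _⟩ | ⟨_, h⟩ | ⟨h, _⟩ | ⟨h, _⟩)
            exacts [hij h.symm, hij h.symm, hjk h, hjl h]), hdiag]
        have ekk : M k k = 1 := by
          rw [hd0 _ _ (by
            rintro (⟨h, _⟩ | ⟨h, _⟩ | ⟨_, h⟩ | ⟨h, _⟩)
            exacts [hik h.symm, hjk h.symm, hkl h, hkl h]), hdiag]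
        have ell : M l l = 1 := by
          rw [hd0 _ _ (by
            rintro (⟨h, _⟩ | ⟨h, _⟩ | ⟨h, _⟩ | ⟨_, h⟩)
            exacts [hil h.symm, hjl h.symm, hkl h.symm, hkl h.symm]), hdiag]
        have cross : ∀ u v, (u = i ∨ u = j) → (v = k ∨ v = l) →
            (-(1 + 1 / ((m : ℝ) + 2)) ≤ M u v ∧ M u v ≤ -1) ∧
            (-(1 + 1 / ((m : ℝ) + 2)) ≤ M v u ∧ M v u ≤ -1) := by
          intro u v hu hv
          have huv : u ≠ v := by
            rcases hu with rfl | rfl <;> rcases hv with rfl | rfl <;> assumption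
          have a1 : u ≠ k := by
            rcases hu with rfl | rfl
            exacts [hik, hjk]
          have a2 : u ≠ l := by
            rcases hu with rfl | rfl
            exacts [hil, hjl]
          have a3 : v ≠ i := by
            rcases hv with rfl | rfl
            exacts [hik.symm, hil.symm]
          have a4 : v ≠ j := by
            rcases hv with rfl | rfl
            exacts [hjk.symm, hjl.symm]
          have g1 : ¬ ((u = i ∧ v = j) ∨ (u = j ∧ v = i) ∨ (u = k ∧ v = l) ∨
            (u = l ∧ v = k)) := by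
            rintro (⟨_, h⟩ | ⟨_, h⟩ | ⟨h, _⟩ | ⟨h, _⟩)
            exacts [a4 h, a3 h, a1 h, a2 h]
          have g2 : ¬ ((v = i ∧ u = j) ∨ (v = j ∧ u = i) ∨ (v = k ∧ u = l) ∨
            (v = l ∧ u = k)) := by
            rintro (⟨h, _⟩ | ⟨h, _⟩ | ⟨_, h⟩ | ⟨_, h⟩)
            exacts [a3 h, a4 h, a2 h, a1 h]
          rw [hd0 _ _ g1, hd0 _ _ g2]
          exact ⟨hb u v huv, hb v u huv.symm⟩
        have c1 := cross i k (Or.inl rfl) (Or.inl rfl)
        have c2 := cross i l (Or.inl rfl) (Or.inr rfl)
        have c3 := cross j k (Or.inr rfl) (Or.inl rfl)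
        have c4 := cross j l (Or.inr rfl) (Or.inr rfl)
        rw [eij, eji, ekl, elk, eii, ejj, ekk, ell]
        set ε : ℝ := 1 / ((m : ℝ) + 2) with hε
        set S : ℝ := M i k + M i l + M j k + M j l + (M k i + M l i + M k j + M l j) with hS
        have hS1 : -8 * (1 + ε) ≤ S := by
          have := c1.1.1; have := c1.2.1; have := c2.1.1; have := c2.2.1
          have := c3.1.1; have := c3.2.1; have := c4.1.1; have := c4.2.1
          rw [hS]; linarith
        have hS2 : S ≤ 0 := by
          have := c1.1.2; have := c1.2.2; have := c2.1.2; have := c2.2.2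
          have := c3.1.2; have := c3.2.2; have := c4.1.2; have := c4.2.2
          rw [hS]; linarith
        have key : α * β * S ≤ 4 * (1 + ε) * (α ^ 2 + β ^ 2) := by
          have q1 : 0 ≤ α ^ 2 + β ^ 2 + 2 * (α * β) := by nlinarith [sq_nonneg (α + β)]
          have q2 : 0 ≤ (α ^ 2 + β ^ 2 + 2 * (α * β)) * (-S) := mul_nonneg q1 (by linarith)
          have q3 : 0 ≤ (α ^ 2 + β ^ 2) * (S + 8 * (1 + ε)) :=
            mul_nonneg (by positivity) (by linarith)
          nlinarith
        have fin : 4 * (1 + ε) * (α ^ 2 + β ^ 2) ≤ (6 + 2 * ε) * (α ^ 2 + β ^ 2) :=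
          mul_le_mul_of_nonneg_right (by linarith [he.2]) (by positivity)
        have : α * α * 1 + α * α * (-(1 + ε) - 3) + α * β * M i k + α * β * M i l +
          (α * α * (-(1 + ε) - 3) + α * α * 1 + α * β * M j k + α * β * M j l) +
          (β * α * M k i + β * α * M k j + β * β * 1 + β * β * (-(1 + ε) - 3)) +
          (β * α * M l i + β * α * M l j + β * β * (-(1 + ε) - 3) + β * β * 1) =
          α * β * S - (6 + 2 * ε) * (α ^ 2 + β ^ 2) := by
          rw [hS]; ring
        rw [this]
        linarith)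
  obtain ⟨P, τ, hP⟩ := lorentz_gram hH m (by simp) hm hs0
  refine ⟨P, τ, ?_, ?_⟩
  · intro u
    rw [← hP u u]
    have h0 : dirM m i j k l u u = 0 := by
      simp only [dirM]
      rw [if_neg]
      rintro (⟨a, b⟩ | ⟨a, b⟩ | ⟨a, b⟩ | ⟨a, b⟩)
      · exact hij (a.symm.trans b)
      · exact hij (b.symm.trans a)
      · exact hkl (a.symm.trans b)
      · exact hkl (b.symm.trans a)
    simp [Matrix.sub_apply, Matrix.smul_apply, h0, baseM]
  · intro u v huv
    rw [← hP u v]
    simp only [Matrix.sub_apply, Matrix.smul_apply, smul_eq_mul, baseM, if_neg huv]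
    by_cases hadj : G.Adj u v
    · have h0 : dirM m i j k l u v = 0 := by
        simp only [dirM]
        rw [if_neg]
        rintro (⟨a, b⟩ | ⟨a, b⟩ | ⟨a, b⟩ | ⟨a, b⟩) <;> rw [a, b] at hadj
        · exact h1 hadj
        · exact h1 hadj.symm
        · exact h2 hadj
        · exact h2 hadj.symm
      rw [h0, if_pos hadj]
      simp [hadj]
    · rw [if_neg hadj]
      constructor
      · intro h; exact absurd h hadj
      · intro h
        exfalso
        have h3 := (abs_le.1 h).1
        have h4 : 0 ≤ dirM m i j k l u v := by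
          simp only [dirM]
          split_ifs <;> norm_num
        have h5 : 0 ≤ s * dirM m i j k l u v := mul_nonneg hs h4
        linarith [he.1]

end Pool.Agent.Helper848.SD
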