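import Pool.Agent.Helper848.SD.Defs
import Pool.Agent.Helper848.SD.Upper
import Pool.Agent.Helper848.SD.Geo
import Pool.Agent.Helper848.SD.Small

set_option autoImplicit false

/-!
# The upper bound on the sphere dimension
-/

namespace Pool.Agent.Helper848.SD

theorem class_of_lorentz {V : Type} (G : SimpleGraph V) (d : ℕ) (P : V → Fin (d + 1) → ℝ)
    (τ : V → ℝ) (h1 : ∀ u, ∑ a, P u a * P u a - τ u * τ u = 1)
    (h2 : ∀ u v, u ≠ v → (G.Adj u v ↔ |∑ a, P u a * P v a - τ u * τ v| ≤ 1)) :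
    SphereClass d G := by
  set p : V → Eu (d + 1) := fun v => WithLp.toLp 2 (P v) with hp
  have hin : ∀ v w, inner ℝ (p v) (p w) = ∑ a, P v a * P w a := by
    intro v w
    rw [Pool.Agent.Helper91.Eig.inner_sum]
  have hnorm : ∀ v, ‖p v‖ ^ 2 = 1 + τ v ^ 2 := by
    intro v
    rw [← real_inner_self_eq_norm_sq, hin]
    have := h1 v
    linarith
  have hne : ∀ v, p v ≠ 0 := by
    intro v h
    have := hnorm v
    rw [h, norm_zero] at this
    nlinarith [sq_nonneg (τ v)]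
  refine ⟨fun v => Metric.closedBall 0 1 ∩ {x | inner ℝ (p v) x = τ v},
    fun v => ⟨p v, τ v, hne v, rfl⟩, ?_⟩
  intro v w hvw
  rw [h2 v w hvw]
  have hs := slice_inter (p v) (p w) (τ v) (τ w) (hne v) (hne w)
  rw [hnorm, hnorm, hin] at hs
  have e : ((Metric.closedBall (0 : Eu (d + 1)) 1 ∩ {x | inner ℝ (p v) x = τ v}) ∩
      (Metric.closedBall 0 1 ∩ {x | inner ℝ (p w) x = τ w})).Nonempty ↔
      ∃ x : Eu (d + 1), ‖x‖ ≤ 1 ∧ inner ℝ (p v) x = τ v ∧ inner ℝ (p w) x = τ w := by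
    constructor
    · rintro ⟨x, ⟨hx1, hx2⟩, ⟨_, hx3⟩⟩
      exact ⟨x, mem_closedBall_zero_iff.1 hx1, hx2, hx3⟩
    · rintro ⟨x, hx1, hx2, hx3⟩
      exact ⟨x, ⟨mem_closedBall_zero_iff.2 hx1, hx2⟩, ⟨mem_closedBall_zero_iff.2 hx1, hx3⟩⟩
  rw [e, hs]
  have h3 : (1 + τ v ^ 2 - τ v ^ 2) * (1 + τ w ^ 2 - τ w ^ 2) = 1 := by ring
  rw [h3]
  constructor
  · intro h
    refine ⟨by linarith, by linarith, ?_⟩
    exact (sq_le_one_iff_abs_le_one _).2 h
  · rintro ⟨_, _, h⟩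
    exact (sq_le_one_iff_abs_le_one _).1 h

/-- the upper bound: every graph on `n ≥ 3` vertices lies in `𝒮_d` for some `d ≤ max 1 (n - 3)` -/
theorem exists_class (n : ℕ) (hn : 3 ≤ n) (G : SimpleGraph (Fin n)) :
    ∃ d, 1 ≤ d ∧ d ≤ max 1 (n - 3) ∧ SphereClass d G := by
  by_cases h : ∀ i j k l, i ≠ j → k ≠ l → ¬ G.Adj i j → ¬ G.Adj k l →
      i = k ∨ i = l ∨ j = k ∨ j = l
  · obtain ⟨P, τ, h1, h2⟩ := caseB G h
    exact ⟨1, le_rfl, le_max_left _ _, class_of_lorentz G 1 P τ h1 h2⟩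
  · push Not at h
    obtain ⟨i, j, k, l, hij, hkl, hnij, hnkl, hik, hil, hjk, hjl⟩ := h
    have hn4 : 4 ≤ n := by
      have : ({i, j, k, l} : Finset (Fin n)).card = 4 := by
        rw [Finset.card_insert_of_notMem, Finset.card_insert_of_notMem,
          Finset.card_insert_of_notMem, Finset.card_singleton]
        · simpa using hkl
        · simp [hjk, hjl]
        · simp [hij, hik, hil]
      have h2 := Finset.card_le_univ ({i, j, k, l} : Finset (Fin n))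
      rw [this, Fintype.card_fin] at h2
      exact h2
    obtain ⟨d, rfl⟩ : ∃ d, n = d + 3 := ⟨n - 3, by omega⟩
    obtain ⟨P, τ, h1, h2⟩ := caseA (d + 1) G i j k l hij hkl hik hil hjk hjl hnij hnkl
    refine ⟨d, by omega, ?_, class_of_lorentz G d P τ h1 h2⟩
    rw [Nat.add_sub_cancel]
    exact le_max_right _ _

theorem sd_le (n : ℕ) (hn : 3 ≤ n) (G : SimpleGraph (Fin n)) : 1 ≤ sd G ∧ sd G ≤ max 1 (n - 3) := by
  obtain ⟨d, h1, h2, h3⟩ := exists_class n hn G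
  have hne : {d | 1 ≤ d ∧ SphereClass d G}.Nonempty := ⟨d, h1, h3⟩
  have hle : sd G ≤ d := Nat.sInf_le (show d ∈ {d | 1 ≤ d ∧ SphereClass d G} from ⟨h1, h3⟩)
  exact ⟨(Nat.sInf_mem hne).1, hle.trans h2⟩

theorem bdd (n : ℕ) (hn : 3 ≤ n) : BddAbove {d | ∃ G : SimpleGraph (Fin n), sd G = d} := by
  refine ⟨max 1 (n - 3), ?_⟩
  rintro d ⟨G, rfl⟩
  exact (sd_le n hn G).2

end Pool.Agent.Helper848.SD
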